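import Pool.Agent.H954.AD.Basic

/-!
Long alternating paths between two sets of vertices any two large subsets of which are joined by
an edge.
-/

open Finset

namespace Pool.Agent.H954.AD

variable {V : Type*}

/-- `x` and `y` are on different sides. -/
def Alt (A B : Finset V) (x y : V) : Prop := (x ∈ A ∧ y ∈ B) ∨ (x ∈ B ∧ y ∈ A)

lemma Alt.symm {A B : Finset V} {x y : V} (h : Alt A B x y) : Alt A B y x := by
  rcases h with h | h
  · exact Or.inr ⟨h.2, h.1⟩
  · exact Or.inl ⟨h.2, h.1⟩

lemma Alt.swap {A B : Finset V} {x y : V} (h : Alt A B x y) : Alt B A x y := by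
  rcases h with h | h
  · exact Or.inr h
  · exact Or.inl h

open Classical in
/-- Half of the entries of an alternating list are in `A`. -/
lemma count_alt {A B : Finset V} (hAB : Disjoint A B) : ∀ (xs : List V), xs.IsChain (Alt A B) →
    (∀ x ∈ xs, x ∈ A ∨ x ∈ B) →
    2 * (xs.countP (fun x => decide (x ∈ A))) ≤ xs.length + 1 ∧
    xs.length ≤ 2 * (xs.countP (fun x => decide (x ∈ A))) + 1
  | [], _, _ => by simp
  | [x], _, h => by
    by_cases hx : x ∈ A
    · simp [hx]
    · simp [hx]
  | x :: y :: l, hc, h => by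
    have hc2 := (List.isChain_cons_cons.mp hc)
    have hc3 : l.IsChain (Alt A B) := by
      have := hc2.2
      exact this.tail
    have ih := count_alt hAB l hc3 (fun z hz => h z (by simp [hz]))
    have hxy := hc2.1
    have e : (x :: y :: l).countP (fun x => decide (x ∈ A)) =
        l.countP (fun x => decide (x ∈ A)) + 1 := by
      rcases hxy with ⟨h1, h2⟩ | ⟨h1, h2⟩
      · have h3 : y ∉ A := fun h' => Finset.disjoint_left.mp hAB h' h2
        rw [List.countP_cons_of_pos (by simpa using h1), List.countP_cons_of_neg (by simpa using h3)]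
      · have h3 : x ∉ A := fun h' => Finset.disjoint_left.mp hAB h' h1
        rw [List.countP_cons_of_neg (by simpa using h3), List.countP_cons_of_pos (by simpa using h2)]
    rw [e]
    simp only [List.length_cons]
    omega

open Classical in
lemma card_filter_eq {A : Finset V} {xs : List V} (hn : xs.Nodup) :
    (xs.toFinset.filter (fun x => x ∈ A)).card = xs.countP (fun x => decide (x ∈ A)) := by
  have h : xs.toFinset.filter (fun x => x ∈ A) =
      (xs.filter (fun x => decide (x ∈ A))).toFinset := by
    ext x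
    simp
  rw [h, List.toFinset_card_of_nodup (hn.filter _), List.countP_eq_length_filter]

open Classical in
lemma card_side_le {A B : Finset V} (hAB : Disjoint A B) {xs : List V}
    (hc : xs.IsChain (Alt A B)) (h : ∀ x ∈ xs, x ∈ A ∨ x ∈ B) (hn : xs.Nodup) :
    2 * (xs.toFinset.filter (fun x => x ∈ A)).card ≤ xs.length + 1 ∧
    xs.length ≤ 2 * (xs.toFinset.filter (fun x => x ∈ A)).card + 1 := by
  rw [card_filter_eq hn]
  exact count_alt hAB xs hc h

/-- The state of the depth first search. -/
structure St (H : SimpleGraph V) (A B : Finset V) (q : ℕ) (xs : List V) (DA DB : Finset V) :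
    Prop where
  nodup : xs.Nodup
  chain : xs.IsChain (fun x y => H.Adj x y ∧ Alt A B x y)
  side : ∀ x ∈ xs, x ∈ A ∨ x ∈ B
  subA : DA ⊆ A
  subB : DB ⊆ B
  notA : ∀ x ∈ xs, x ∉ DA
  notB : ∀ x ∈ xs, x ∉ DB
  cardA : DA.card < q
  cardB : DB.card < q
  deadA : ∀ x ∈ DA, ∀ y ∈ B, y ∉ xs → y ∉ DB → ¬ H.Adj x y
  deadB : ∀ x ∈ DB, ∀ y ∈ A, y ∉ xs → y ∉ DA → ¬ H.Adj x y

lemma St.swap {H : SimpleGraph V} {A B : Finset V} {q : ℕ} {xs : List V} {DA DB : Finset V}
    (h : St H A B q xs DA DB) : St H B A q xs DB DA where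
  nodup := h.nodup
  chain := h.chain.imp fun _ _ h => ⟨h.1, h.2.swap⟩
  side := fun x hx => (h.side x hx).symm
  subA := h.subB
  subB := h.subA
  notA := h.notB
  notB := h.notA
  cardA := h.cardB
  cardB := h.cardA
  deadA := h.deadB
  deadB := h.deadA

open Classical in
lemma step_cons {H : SimpleGraph V} {A B : Finset V} (hAB : Disjoint A B) {q N : ℕ}
    (hB : N + 2 * q ≤ B.card)
    (hj : ∀ X ⊆ A, ∀ Y ⊆ B, q ≤ X.card → q ≤ Y.card → ∃ x ∈ X, ∃ y ∈ Y, H.Adj x y)
    {x : V} {l : List V} {DA DB : Finset V} (h : St H A B q (x :: l) DA DB) (hx : x ∈ A)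
    (hl : (x :: l).length < 2 * N) :
    (∃ y, St H A B q (y :: x :: l) DA DB) ∨ (x ∉ DA ∧ St H A B q l (insert x DA) DB) := by
  have hxB : x ∉ B := fun h' => Finset.disjoint_left.mp hAB hx h'
  have hxDA : x ∉ DA := h.notA x (by simp)
  by_cases hy : ∃ y ∈ B, y ∉ x :: l ∧ y ∉ DB ∧ H.Adj x y
  · left
    obtain ⟨y, hyB, hyl, hyD, hxy⟩ := hy
    refine ⟨y, ⟨List.nodup_cons.mpr ⟨hyl, h.nodup⟩, ?_, ?_, h.subA, h.subB, ?_, ?_, h.cardA,
      h.cardB, ?_, ?_⟩⟩
    · rw [List.isChain_cons_cons]
      exact ⟨⟨hxy.symm, Or.inr ⟨hyB, hx⟩⟩, h.chain⟩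
    · intro z hz
      rcases List.mem_cons.mp hz with rfl | hz
      · exact Or.inr hyB
      · exact h.side z hz
    · intro z hz
      rcases List.mem_cons.mp hz with rfl | hz
      · exact fun h' => Finset.disjoint_left.mp hAB (h.subA h') hyB
      · exact h.notA z hz
    · intro z hz
      rcases List.mem_cons.mp hz with rfl | hz
      · exact hyD
      · exact h.notB z hz
    · intro z hz w hw hwl hwD
      exact h.deadA z hz w hw (fun h' => hwl (List.mem_cons_of_mem _ h')) hwD
    · intro z hz w hw hwl hwD
      exact h.deadB z hz w hw (fun h' => hwl (List.mem_cons_of_mem _ h')) hwD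
  · right
    push Not at hy
    refine ⟨hxDA, ⟨(List.nodup_cons.mp h.nodup).2, h.chain.tail, fun z hz => h.side z (by simp [hz]),
      Finset.insert_subset hx h.subA, h.subB, ?_, fun z hz => h.notB z (by simp [hz]), ?_, h.cardB,
      ?_, ?_⟩⟩
    · intro z hz hzi
      rcases Finset.mem_insert.mp hzi with rfl | hz'
      · exact (List.nodup_cons.mp h.nodup).1 hz
      · exact h.notA z (by simp [hz]) hz'
    · rw [Finset.card_insert_of_notMem hxDA]
      by_contra hlt
      push Not at hlt
      have hc := h.cardA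
      have hcard : (insert x DA).card = q := by
        rw [Finset.card_insert_of_notMem hxDA]; omega
      have hside := card_side_le hAB.symm (h.chain.imp fun _ _ h => h.2.swap)
        (fun z hz => (h.side z hz).symm) h.nodup
      set Y : Finset V := (B \ (x :: l).toFinset.filter (fun z => z ∈ B)) \ DB with hY
      have hYc : q ≤ Y.card := by
        have h1 := Finset.le_card_sdiff ((x :: l).toFinset.filter (fun z => z ∈ B)) B
        have h2 := Finset.le_card_sdiff DB (B \ (x :: l).toFinset.filter (fun z => z ∈ B))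
        have h3 := h.cardB
        rw [← hY] at h2
        omega
      obtain ⟨a, ha, b, hb, hab⟩ := hj (insert x DA) (Finset.insert_subset hx h.subA) Y
        (Finset.sdiff_subset.trans Finset.sdiff_subset) (by omega) hYc
      rw [hY, Finset.mem_sdiff, Finset.mem_sdiff, Finset.mem_filter] at hb
      have hbl : b ∉ x :: l := fun h' => hb.1.2 ⟨List.mem_toFinset.mpr h', hb.1.1⟩
      rcases Finset.mem_insert.mp ha with rfl | ha
      · exact hy b hb.1.1 hbl hb.2 hab
      · exact h.deadA a ha b hb.1.1 hbl hb.2 hab
    · intro z hz w hw hwl hwD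
      have hwx : w ≠ x := by
        rintro rfl
        exact hxB hw
      have hwl' : w ∉ x :: l := by
        intro h'
        rcases List.mem_cons.mp h' with h' | h'
        · exact hwx h'
        · exact hwl h'
      rcases Finset.mem_insert.mp hz with rfl | hz
      · exact hy w hw hwl' hwD
      · exact h.deadA z hz w hw hwl' hwD
    · intro z hz w hw hwl hwD
      rw [Finset.mem_insert] at hwD
      push Not at hwD
      refine h.deadB z hz w hw ?_ hwD.2
      intro h'
      rcases List.mem_cons.mp h' with h' | h'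
      · exact hwD.1 h'
      · exact hwl h'

open Classical in
/-- **Alternating paths.** -/
theorem exists_alt {H : SimpleGraph V} {A B : Finset V} (hAB : Disjoint A B) {q N : ℕ}
    (hq : 1 ≤ q) (hA : N + 2 * q ≤ A.card) (hB : N + 2 * q ≤ B.card)
    (hj : ∀ X ⊆ A, ∀ Y ⊆ B, q ≤ X.card → q ≤ Y.card → ∃ x ∈ X, ∃ y ∈ Y, H.Adj x y) :
    ∃ xs : List V, xs.Nodup ∧ xs.IsChain (fun x y => H.Adj x y ∧ Alt A B x y) ∧
      (∀ x ∈ xs, x ∈ A ∨ x ∈ B) ∧ xs.length = 2 * N := by
  suffices h : ∀ (n : ℕ) (xs : List V) (DA DB : Finset V), St H A B q xs DA DB →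
      xs.length ≤ 2 * N → 2 * N + 4 * q - (2 * DA.card + 2 * DB.card + xs.length) = n →
      ∃ xs : List V, xs.Nodup ∧ xs.IsChain (fun x y => H.Adj x y ∧ Alt A B x y) ∧
      (∀ x ∈ xs, x ∈ A ∨ x ∈ B) ∧ xs.length = 2 * N by
    refine h _ [] ∅ ∅ ⟨by simp, by simp, by simp, by simp, by simp, by simp, by simp, ?_, ?_,
      by simp, by simp⟩ (by simp) rfl
    · rw [Finset.card_empty]; omega
    · rw [Finset.card_empty]; omega
  intro n
  induction n using Nat.strong_induction_on with
  | _ n ih =>
  intro xs DA DB h hlen hn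
  by_cases hfull : xs.length = 2 * N
  · exact ⟨xs, h.nodup, h.chain, h.side, hfull⟩
  have hlt : xs.length < 2 * N := by omega
  have hcA := h.cardA
  have hcB := h.cardB
  cases xs with
  | nil =>
    obtain ⟨x, hxA, hxD⟩ : ∃ x ∈ A, x ∉ DA := by
      by_contra hcon
      push Not at hcon
      have := Finset.card_le_card (show A ⊆ DA from hcon)
      omega
    have hSt : St H A B q [x] DA DB := by
      refine ⟨by simp, by simp, ?_, h.subA, h.subB, ?_, ?_, h.cardA, h.cardB, ?_, ?_⟩
      · intro z hz
        rw [List.mem_singleton] at hz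
        subst hz
        exact Or.inl hxA
      · intro z hz
        rw [List.mem_singleton] at hz
        subst hz
        exact hxD
      · intro z hz
        rw [List.mem_singleton] at hz
        subst hz
        exact fun h' => Finset.disjoint_left.mp hAB hxA (h.subB h')
      · intro z hz w hw _ hwD
        exact h.deadA z hz w hw (by simp) hwD
      · intro z hz w hw _ hwD
        exact h.deadB z hz w hw (by simp) hwD
    refine ih _ ?_ [x] DA DB hSt ?_ rfl
    · simp only [List.length_nil, List.length_cons] at hn hlt ⊢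
      omega
    · simp only [List.length_nil, List.length_cons] at hlt ⊢
      omega
  | cons x l =>
    have hxs := h.side x (by simp)
    rcases hxs with hx | hx
    · rcases step_cons hAB hB hj h hx hlt with ⟨y, hy⟩ | ⟨hxD, hy⟩
      · refine ih _ ?_ _ DA DB hy ?_ rfl
        · simp only [List.length_cons] at hn hlt ⊢
          omega
        · simp only [List.length_cons] at hlt ⊢
          omega
      · refine ih _ ?_ _ _ DB hy ?_ rfl
        · rw [Finset.card_insert_of_notMem hxD]
          have := hy.cardA
          rw [Finset.card_insert_of_notMem hxD] at this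
          simp only [List.length_cons] at hn hlt ⊢
          omega
        · simp only [List.length_cons] at hlt ⊢
          omega
    · rcases step_cons hAB.symm hA (fun X hX Y hY h1 h2 => by
          obtain ⟨y, hy, x, hx, hxy⟩ := hj Y hY X hX h2 h1
          exact ⟨x, hx, y, hy, hxy.symm⟩) h.swap hx hlt with ⟨y, hy⟩ | ⟨hxD, hy⟩
      · refine ih _ ?_ _ DA DB hy.swap ?_ rfl
        · simp only [List.length_cons] at hn hlt ⊢
          omega
        · simp only [List.length_cons] at hlt ⊢
          omega
      · refine ih _ ?_ _ _ _ hy.swap ?_ rfl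
        · rw [Finset.card_insert_of_notMem hxD]
          have := hy.cardA
          rw [Finset.card_insert_of_notMem hxD] at this
          simp only [List.length_cons] at hn hlt ⊢
          omega
        · simp only [List.length_cons] at hlt ⊢
          omega

end Pool.Agent.H954.AD
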