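import Mathlib

/-!
Random subsets of a finite set: weights of events, cylinder events, union bounds.  Cycles from
lists of vertices.
-/

open Finset

namespace Pool.Agent.H954.AD

section weights

variable {α ι : Type*}

open Classical in
/-- The probability that the random subset of `E` (each element is kept with probability `p`,
independently) has the property `P`. -/
noncomputable def wt (E : Finset α) (p : ℝ) (P : Finset α → Prop) : ℝ :=
  ∑ S ∈ E.powerset.filter P, p ^ S.card * (1 - p) ^ (E.card - S.card)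

lemma wt_true (E : Finset α) (p : ℝ) : wt E p (fun _ => True) = 1 := by
  unfold wt
  rw [Finset.filter_true, Finset.sum_pow_mul_eq_add_pow]
  simp

lemma term_nonneg {E : Finset α} {p : ℝ} (hp0 : 0 ≤ p) (hp1 : p ≤ 1) (S : Finset α) :
    0 ≤ p ^ S.card * (1 - p) ^ (E.card - S.card) :=
  mul_nonneg (pow_nonneg hp0 _) (pow_nonneg (by linarith) _)

lemma wt_nonneg {E : Finset α} {p : ℝ} (hp0 : 0 ≤ p) (hp1 : p ≤ 1) (P : Finset α → Prop) :
    0 ≤ wt E p P := Finset.sum_nonneg fun S _ => term_nonneg hp0 hp1 S

open Classical in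
lemma wt_add_not (E : Finset α) (p : ℝ) (P : Finset α → Prop) :
    wt E p P + wt E p (fun S => ¬ P S) = 1 := by
  rw [← wt_true E p]
  unfold wt
  simp only [Finset.filter_true]
  rw [← Finset.sum_filter_add_sum_filter_not E.powerset P]
  congr 1
  apply Finset.sum_congr _ fun _ _ => rfl
  ext S
  simp only [Finset.mem_filter]

lemma wt_mono {E : Finset α} {p : ℝ} (hp0 : 0 ≤ p) (hp1 : p ≤ 1) {P Q : Finset α → Prop}
    (h : ∀ S ⊆ E, P S → Q S) : wt E p P ≤ wt E p Q := by
  classical
  unfold wt
  apply Finset.sum_le_sum_of_subset_of_nonneg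
  · intro S hS
    rw [Finset.mem_filter] at hS ⊢
    exact ⟨hS.1, h S (Finset.mem_powerset.mp hS.1) hS.2⟩
  · intro S _ _
    exact term_nonneg hp0 hp1 S

open Classical in
lemma ih_sum (E : Finset α) (p : ℝ) (hp0 : 0 ≤ p) (hp1 : p ≤ 1)
    (I : Finset ι) (Q : ι → Finset α → Prop) :
    ∑ S ∈ I.biUnion (fun i => E.powerset.filter (Q i)), p ^ S.card * (1 - p) ^ (E.card - S.card) ≤
    ∑ i ∈ I, ∑ S ∈ E.powerset.filter (Q i), p ^ S.card * (1 - p) ^ (E.card - S.card) := by
  induction I using Finset.induction_on with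
  | empty => simp
  | insert i I hi ih =>
    rw [Finset.sum_insert hi, Finset.biUnion_insert]
    refine le_trans ?_ (add_le_add_right ih _)
    rw [← Finset.sum_union_inter]
    have : 0 ≤ ∑ S ∈ (E.powerset.filter (Q i)) ∩ (I.biUnion fun i => E.powerset.filter (Q i)),
        p ^ S.card * (1 - p) ^ (E.card - S.card) :=
      Finset.sum_nonneg fun S _ => term_nonneg hp0 hp1 S
    linarith

open Classical in
lemma wt_union {E : Finset α} {p : ℝ} (hp0 : 0 ≤ p) (hp1 : p ≤ 1) {P : Finset α → Prop}
    (I : Finset ι) (Q : ι → Finset α → Prop) (h : ∀ S ⊆ E, P S → ∃ i ∈ I, Q i S) :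
    wt E p P ≤ ∑ i ∈ I, wt E p (Q i) := by
  unfold wt
  have h1 : E.powerset.filter P ⊆ I.biUnion fun i => E.powerset.filter (Q i) := by
    intro S hS
    simp only [Finset.mem_filter] at hS
    obtain ⟨i, hi, hQ⟩ := h S (Finset.mem_powerset.mp hS.1) hS.2
    rw [Finset.mem_biUnion]
    exact ⟨i, hi, Finset.mem_filter.mpr ⟨hS.1, hQ⟩⟩
  exact (Finset.sum_le_sum_of_subset_of_nonneg h1 fun S _ _ => term_nonneg hp0 hp1 S).trans
    (ih_sum E p hp0 hp1 I Q)

open Classical in
/-- cylinder events -/
lemma wt_cyl {E X Y : Finset α} (hX : X ⊆ E) (hY : Y ⊆ E) (hXY : Disjoint X Y) (p : ℝ) :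
    wt E p (fun S => X ⊆ S ∧ Disjoint S Y) = p ^ X.card * (1 - p) ^ Y.card := by
  have hXY' : X ∪ Y ⊆ E := Finset.union_subset hX hY
  have hc : (E \ (X ∪ Y)).card + (X.card + Y.card) = E.card := by
    rw [← Finset.card_union_of_disjoint hXY]
    exact Finset.card_sdiff_add_card_eq_card hXY'
  have h1 : wt E p (fun S => X ⊆ S ∧ Disjoint S Y) =
      ∑ S ∈ (E \ (X ∪ Y)).powerset, p ^ (S ∪ X).card * (1 - p) ^ (E.card - (S ∪ X).card) := by
    unfold wt
    refine Finset.sum_bij' (fun S _ => S \ X) (fun S _ => S ∪ X) ?_ ?_ ?_ ?_ ?_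
    · intro S hS
      simp only [Finset.mem_filter, Finset.mem_powerset] at hS
      rw [Finset.mem_powerset]
      intro x hx
      rw [Finset.mem_sdiff] at hx
      rw [Finset.mem_sdiff, Finset.mem_union]
      refine ⟨hS.1 hx.1, ?_⟩
      rintro (h | h)
      · exact hx.2 h
      · exact (Finset.disjoint_left.mp hS.2.2 hx.1) h
    · intro S hS
      rw [Finset.mem_powerset] at hS
      simp only [Finset.mem_filter, Finset.mem_powerset]
      refine ⟨Finset.union_subset (hS.trans Finset.sdiff_subset) hX, Finset.subset_union_right, ?_⟩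
      rw [Finset.disjoint_union_left]
      refine ⟨?_, hXY⟩
      rw [Finset.disjoint_left]
      intro x hx hxY
      have := hS hx
      rw [Finset.mem_sdiff, Finset.mem_union] at this
      exact this.2 (Or.inr hxY)
    · intro S hS
      simp only [Finset.mem_filter] at hS
      exact Finset.sdiff_union_of_subset hS.2.1
    · intro S hS
      rw [Finset.mem_powerset] at hS
      rw [Finset.union_sdiff_cancel_right]
      rw [Finset.disjoint_left]
      intro x hx hxX
      have := hS hx
      rw [Finset.mem_sdiff, Finset.mem_union] at this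
      exact this.2 (Or.inl hxX)
    · intro S hS
      simp only [Finset.mem_filter] at hS
      rw [Finset.sdiff_union_of_subset hS.2.1]
  rw [h1]
  have h2 : ∀ S ∈ (E \ (X ∪ Y)).powerset,
      p ^ (S ∪ X).card * (1 - p) ^ (E.card - (S ∪ X).card) =
      (p ^ S.card * (1 - p) ^ ((E \ (X ∪ Y)).card - S.card)) * (p ^ X.card * (1 - p) ^ Y.card) := by
    intro S hS
    rw [Finset.mem_powerset] at hS
    have hd : Disjoint S X := by
      rw [Finset.disjoint_left]
      intro x hx hxX
      have := hS hx
      rw [Finset.mem_sdiff, Finset.mem_union] at this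
      exact this.2 (Or.inl hxX)
    have hSc : S.card ≤ (E \ (X ∪ Y)).card := Finset.card_le_card hS
    rw [Finset.card_union_of_disjoint hd]
    have : E.card - (S.card + X.card) = ((E \ (X ∪ Y)).card - S.card) + Y.card := by omega
    rw [this, pow_add, pow_add]
    ring
  rw [Finset.sum_congr rfl h2, ← Finset.sum_mul, Finset.sum_pow_mul_eq_add_pow]
  simp

lemma one_sub_pow_le_exp {p : ℝ} (hp1 : p ≤ 1) (n : ℕ) :
    (1 - p) ^ n ≤ Real.exp (-(p * n)) := by
  have h1 : 1 - p ≤ Real.exp (-p) := by
    have := Real.add_one_le_exp (-p)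
    linarith
  calc (1 - p) ^ n ≤ Real.exp (-p) ^ n := pow_le_pow_left₀ (by linarith) h1 n
    _ = Real.exp (-(p * n)) := by rw [← Real.exp_nat_mul]; ring_nf

end weights

/-! ### Cycles -/

section cycles

variable {V : Type*}

/-- `H` has a cycle of length at least `l`. -/
def HasCycle (l : ℕ) (H : SimpleGraph V) : Prop :=
  ∃ (v : V) (c : H.Walk v v), c.IsCycle ∧ l ≤ c.length

lemma HasCycle.mono {l l' : ℕ} {H H' : SimpleGraph V} (h : HasCycle l H) (hl : l' ≤ l)
    (hH : H ≤ H') : HasCycle l' H' := by
  obtain ⟨v, c, hc, hlen⟩ := h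
  refine ⟨v, c.mapLe hH, ?_, ?_⟩
  · exact (SimpleGraph.Walk.isCycle_mapLe hH).mpr hc
  · rw [SimpleGraph.Walk.length_mapLe]
    omega

/-- A walk along a list of vertices. -/
lemma exists_walk (H : SimpleGraph V) : ∀ (l : List V) (x : V), List.IsChain H.Adj (x :: l) →
    ∃ w : H.Walk x ((x :: l).getLast (List.cons_ne_nil _ _)), w.support = x :: l
  | [], x, _ => ⟨SimpleGraph.Walk.nil, by simp⟩
  | y :: l, x, h => by
    rw [List.isChain_cons_cons] at h
    obtain ⟨w, hw⟩ := exists_walk H l y h.2
    have he : (x :: y :: l).getLast (List.cons_ne_nil _ _) =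
        (y :: l).getLast (List.cons_ne_nil _ _) := by simp
    refine ⟨(SimpleGraph.Walk.cons h.1 w).copy rfl he.symm, ?_⟩
    rw [SimpleGraph.Walk.support_copy, SimpleGraph.Walk.support_cons, hw]

/-- A cycle from a list of distinct vertices. -/
lemma hasCycle_of_list (H : SimpleGraph V) (l : List V) (hn : l.Nodup) (hc : l.IsChain H.Adj)
    (h0 : l ≠ []) (hcl : H.Adj (l.getLast h0) (l.head h0)) (h3 : 3 ≤ l.length) :
    HasCycle l.length H := by
  obtain ⟨x, l', rfl⟩ := List.exists_cons_of_ne_nil h0
  obtain ⟨w, hw⟩ := exists_walk H l' x hc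
  have hp : w.IsPath := by
    rw [SimpleGraph.Walk.isPath_def, hw]; exact hn
  simp only [List.head_cons] at hcl
  have hlen : w.length + 1 = (x :: l').length := by
    have h1 := w.length_support
    have h2 := congrArg List.length hw
    omega
  refine ⟨_, SimpleGraph.Walk.cons hcl w, ?_, ?_⟩
  · rw [SimpleGraph.Walk.cons_isCycle_iff]
    refine ⟨hp, ?_⟩
    intro hmem
    obtain ⟨y, l'', rfl⟩ : ∃ y l'', l' = y :: l'' := by
      cases l' with
      | nil => simp at h3
      | cons y l'' => exact ⟨y, l'', rfl⟩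
    obtain ⟨z, l3, rfl⟩ : ∃ z l3, l'' = z :: l3 := by
      cases l'' with
      | nil => simp at h3
      | cons z l3 => exact ⟨z, l3, rfl⟩
    generalize hv : (x :: y :: z :: l3).getLast (List.cons_ne_nil _ _) = v at w hw hp hcl hlen hmem
    cases w with
    | nil => simp at hw
    | @cons _ y' _ h w' =>
      rw [SimpleGraph.Walk.support_cons] at hw
      have hw' : w'.support = y :: z :: l3 := (List.cons.inj hw).2
      have hy' : y' = y := by
        have h1 := w'.cons_tail_support
        rw [← h1] at hw'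
        exact (List.cons.inj hw').1
      rw [SimpleGraph.Walk.edges_cons, List.mem_cons] at hmem
      have hxn : x ∉ w'.support := by
        rw [hw']
        exact (List.nodup_cons.mp hn).1
      rcases hmem with hmem | hmem
      · rw [Sym2.eq_iff] at hmem
        have hvx : v ≠ x := by
          rintro rfl
          exact H.loopless.irrefl _ hcl
        rcases hmem with ⟨h1, _⟩ | ⟨h1, _⟩
        · exact hvx h1
        · -- `v = y`, but `v` is the last entry
          have hvl : v ∈ z :: l3 := by
            rw [← hv]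
            simp only [List.getLast_cons_cons]
            exact List.getLast_mem _
          have hyn : y ∉ z :: l3 := (List.nodup_cons.mp (List.nodup_cons.mp hn).2).1
          rw [h1, hy'] at hvl
          exact hyn hvl
      · exact hxn (w'.snd_mem_support_of_mem_edges hmem)
  · rw [SimpleGraph.Walk.length_cons, hlen]

end cycles

end Pool.Agent.H954.AD
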