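import Pool.Agent.H954.AD.Alt

/-!
A long cycle from a connected matching in the reduced graph.
-/

open Finset

namespace Pool.Agent.H954.AD

variable {V ι : Type*}

/-- Disjoint sets `cl i` of vertices, for every edge `i j` of `R` any large subsets of `cl i` and
`cl j` are joined by an edge of `H`. -/
structure Sys (H : SimpleGraph V) (R : SimpleGraph ι) (cl : ι → Finset V) (q : ℕ) : Prop where
  disj : ∀ i j, i ≠ j → Disjoint (cl i) (cl j)
  joined : ∀ i j, R.Adj i j → ∀ X ⊆ cl i, ∀ Y ⊆ cl j, q ≤ X.card → q ≤ Y.card →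
    ∃ x ∈ X, ∃ y ∈ Y, H.Adj x y

lemma Sys.eq_of_mem {H : SimpleGraph V} {R : SimpleGraph ι} {cl : ι → Finset V} {q : ℕ}
    (hs : Sys H R cl q) {i j : ι} {x : V} (hi : x ∈ cl i) (hj : x ∈ cl j) : i = j := by
  by_contra h
  exact Finset.disjoint_left.mp (hs.disj i j h) hi hj

open Classical in
/-- Connecting paths through the reservoirs `Z`. -/
lemma connector {H : SimpleGraph V} {R : SimpleGraph ι} {cl : ι → Finset V} {q : ℕ}
    (hs : Sys H R cl q) (Z : ι → Finset V) (hZ : ∀ i, Z i ⊆ cl i) (hZc : ∀ i, 2 * q ≤ (Z i).card)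
    {i j : ι} (w : R.Walk i j) : w.IsPath → i ≠ j → ∀ E ⊆ cl i, q ≤ E.card → ∀ F ⊆ cl j,
      q ≤ F.card → ∃ e ∈ E, ∃ f ∈ F, ∃ zs : List V, (e :: (zs ++ [f])).IsChain H.Adj ∧ zs.Nodup ∧
      (∀ z ∈ zs, ∃ k ∈ w.support.tail, z ∈ Z k) ∧
      ∀ k, ∀ z ∈ zs, ∀ z' ∈ zs, z ∈ cl k → z' ∈ cl k → z = z' := by
  induction w with
  | nil => intro _ h; exact absurd rfl h
  | @cons i i' j h w' ih =>
    intro hp hij E hE hEc F hF hFc
    have hp' := (SimpleGraph.Walk.cons_isPath_iff h w').mp hp
    by_cases hij' : i' = j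
    · subst hij'
      obtain ⟨e, he, f, hf, hef⟩ := hs.joined _ _ h E hE F hF hEc hFc
      exact ⟨e, he, f, hf, [], by simpa using hef, by simp, by simp, by simp⟩
    · set E' : Finset V := (Z i').filter fun z => ∃ e ∈ E, H.Adj e z with hE'
      have hE'c : q ≤ E'.card := by
        by_contra hlt
        push Not at hlt
        have h1 := Finset.le_card_sdiff E' (Z i')
        have h2 := hZc i'
        obtain ⟨e, he, z, hz, hez⟩ := hs.joined _ _ h E hE (Z i' \ E')
          (Finset.sdiff_subset.trans (hZ i')) hEc (by omega)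
        rw [Finset.mem_sdiff] at hz
        exact hz.2 (Finset.mem_filter.mpr ⟨hz.1, e, he, hez⟩)
      obtain ⟨e', he', f, hf, zs, h1, h2, h3, h4⟩ := ih hp'.1 hij' E'
        ((Finset.filter_subset _ _).trans (hZ i')) hE'c F hF hFc
      rw [hE', Finset.mem_filter] at he'
      obtain ⟨heZ, e, he, hee⟩ := he'
      have hnot : ∀ z ∈ zs, z ∉ cl i' := by
        intro z hz hzc
        obtain ⟨k, hk, hzk⟩ := h3 z hz
        have hki : k = i' := hs.eq_of_mem (hZ k hzk) hzc
        subst hki
        have h5 := hp'.1.support_nodup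
        rw [← w'.cons_tail_support] at h5
        exact (List.nodup_cons.mp h5).1 hk
      refine ⟨e, he, f, hf, e' :: zs, ?_, ?_, ?_, ?_⟩
      · rw [List.cons_append, List.isChain_cons_cons]
        exact ⟨hee, h1⟩
      · rw [List.nodup_cons]
        exact ⟨fun h' => hnot e' h' (hZ _ heZ), h2⟩
      · intro z hz
        rw [SimpleGraph.Walk.support_cons, List.tail_cons]
        rcases List.mem_cons.mp hz with rfl | hz
        · exact ⟨i', w'.start_mem_support, heZ⟩
        · obtain ⟨k, hk, hzk⟩ := h3 z hz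
          exact ⟨k, List.mem_of_mem_tail hk, hzk⟩
      · intro k z hz z' hz' hzk hzk'
        rcases List.mem_cons.mp hz with hze | hze
        · rcases List.mem_cons.mp hz' with hze' | hze'
          · rw [hze, hze']
          · exfalso
            rw [hze] at hzk
            have : k = i' := hs.eq_of_mem hzk (hZ _ heZ)
            rw [this] at hzk'
            exact hnot z' hze' hzk'
        · rcases List.mem_cons.mp hz' with hze' | hze'
          · exfalso
            rw [hze'] at hzk'
            have : k = i' := hs.eq_of_mem hzk' (hZ _ heZ)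
            rw [this] at hzk
            exact hnot z hze hzk
          · exact h4 k z hze z' hze' hzk hzk'

lemma split3 {xs : List V} {a b c : ℕ} (h : xs.length = a + b + c) :
    ∃ S M T, xs = S ++ (M ++ T) ∧ S.length = a ∧ M.length = b ∧ T.length = c := by
  refine ⟨xs.take a, (xs.drop a).take b, (xs.drop a).drop b, ?_, ?_, ?_, ?_⟩
  · rw [List.take_append_drop, List.take_append_drop]
  · rw [List.length_take]; omega
  · rw [List.length_take, List.length_drop]; omega
  · rw [List.length_drop, List.length_drop]; omega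

/-- A path `S ++ M ++ T` whose first part alternates between `A`, `B` and whose last part
alternates between `A'`, `B'`. -/
structure Seg (H : SimpleGraph V) (A B A' B' : Finset V) (q : ℕ) (S M T : List V) : Prop where
  nodup : (S ++ (M ++ T)).Nodup
  chain : (S ++ (M ++ T)).IsChain H.Adj
  Slen : S.length = 2 * q
  Tlen : T.length = 2 * q
  Salt : S.IsChain (Alt A B)
  Talt : T.IsChain (Alt A' B')
  Sside : ∀ x ∈ S, x ∈ A ∨ x ∈ B
  Tside : ∀ x ∈ T, x ∈ A' ∨ x ∈ B'

/-- Disjoint pairs. -/
def Dj (p p' : ι × ι) : Prop := p.1 ≠ p'.1 ∧ p.1 ≠ p'.2 ∧ p.2 ≠ p'.1 ∧ p.2 ≠ p'.2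

lemma join_chain {r : V → V → Prop} {l1 zs l2 : List V} {e f : V} (h1 : (l1 ++ [e]).IsChain r)
    (h2 : (e :: (zs ++ [f])).IsChain r) (h3 : (f :: l2).IsChain r) :
    (l1 ++ e :: (zs ++ f :: l2)).IsChain r := by
  rw [List.isChain_split]
  refine ⟨h1, ?_⟩
  rw [← List.cons_append, List.isChain_split]
  exact ⟨by simpa using h2, h3⟩

open Classical in
/-- **Long paths through all pairs of a connected matching.** -/
theorem exists_seg {H : SimpleGraph V} {R : SimpleGraph ι} {cl : ι → Finset V} {q : ℕ}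
    (hs : Sys H R cl q) (hq : 1 ≤ q) (Z : ι → Finset V) (hZ : ∀ i, Z i ⊆ cl i) {N s : ℕ}
    (hN : 2 * q ≤ N) (hcl : ∀ i, N + 2 * q ≤ (cl i \ Z i).card)
    (hZc : ∀ i, 2 * q + s ≤ (Z i).card) (r : ι) :
    ∀ (ps : List (ι × ι)) (p0 : ι × ι), (∀ p ∈ p0 :: ps, R.Adj p.1 p.2 ∧ R.Reachable r p.1) →
      (p0 :: ps).Pairwise Dj → ps.length ≤ s →
      ∃ pl ∈ p0 :: ps, ∃ S M T, Seg H (cl p0.1 \ Z p0.1) (cl p0.2 \ Z p0.2) (cl pl.1 \ Z pl.1)
        (cl pl.2 \ Z pl.2) q S M T ∧ (ps.length + 1) * (2 * N - 4 * q) ≤ M.length ∧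
        (∀ x ∈ S ++ (M ++ T), (∃ p ∈ p0 :: ps, x ∈ cl p.1 \ Z p.1 ∨ x ∈ cl p.2 \ Z p.2) ∨
          ∃ k, x ∈ Z k) ∧ ∀ k, ((S ++ (M ++ T)).toFinset ∩ Z k).card ≤ ps.length := by
  intro ps
  induction ps with
  | nil =>
    intro p0 hp0 _ _
    obtain ⟨hadj, hr⟩ := hp0 p0 (by simp)
    have hd : Disjoint (cl p0.1 \ Z p0.1) (cl p0.2 \ Z p0.2) :=
      (hs.disj _ _ hadj.ne).mono Finset.sdiff_subset Finset.sdiff_subset
    obtain ⟨xs, h1, h2, h3, h4⟩ := exists_alt hd hq (hcl _) (hcl _)
      (fun X hX Y hY hXc hYc => hs.joined _ _ hadj X (hX.trans Finset.sdiff_subset) Y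
        (hY.trans Finset.sdiff_subset) hXc hYc)
    obtain ⟨S, M, T, rfl, hS, hM, hT⟩ := split3 (xs := xs) (a := 2 * q) (b := 2 * N - 4 * q)
      (c := 2 * q) (by omega)
    have hc1 : (S ++ (M ++ T)).IsChain (Alt (cl p0.1 \ Z p0.1) (cl p0.2 \ Z p0.2)) :=
      h2.imp fun _ _ h => h.2
    have hnZ : ∀ x ∈ S ++ (M ++ T), ∀ k, x ∉ Z k := by
      intro x hx k hk
      rcases h3 x hx with h | h
      · rw [Finset.mem_sdiff] at h
        have := hs.eq_of_mem h.1 (hZ k hk)
        subst this
        exact h.2 hk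
      · rw [Finset.mem_sdiff] at h
        have := hs.eq_of_mem h.1 (hZ k hk)
        subst this
        exact h.2 hk
    refine ⟨p0, by simp, S, M, T, ⟨h1, h2.imp fun _ _ h => h.1, hS, hT, hc1.left_of_append,
      hc1.right_of_append.right_of_append, fun x hx => h3 x (by simp [hx]),
      fun x hx => h3 x (by simp [hx])⟩, by simp [hM], fun x hx => Or.inl ⟨p0, by simp, h3 x hx⟩, ?_⟩
    intro k
    simp only [List.length_nil, Nat.le_zero, Finset.card_eq_zero]
    rw [← Finset.disjoint_iff_inter_eq_empty, Finset.disjoint_left]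
    intro x hx hxk
    exact hnZ x (List.mem_toFinset.mp hx) k hxk
  | cons p1 ps ih =>
    intro p0 hp0 hpw hlen
    obtain ⟨pl, hpl, S', M', T', hseg, hMlen, hmem, hcnt⟩ := ih p1
      (fun p hp => hp0 p (List.mem_cons_of_mem _ hp)) (List.pairwise_cons.mp hpw).2
      (by simp at hlen; omega)
    obtain ⟨hadj, hr⟩ := hp0 p0 (by simp)
    obtain ⟨hadj1, hr1⟩ := hp0 p1 (by simp)
    have hd : Disjoint (cl p0.1 \ Z p0.1) (cl p0.2 \ Z p0.2) :=
      (hs.disj _ _ hadj.ne).mono Finset.sdiff_subset Finset.sdiff_subset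
    have hd1 : Disjoint (cl p1.1 \ Z p1.1) (cl p1.2 \ Z p1.2) :=
      (hs.disj _ _ hadj1.ne).mono Finset.sdiff_subset Finset.sdiff_subset
    obtain ⟨xs, h1, h2, h3, h4⟩ := exists_alt hd hq (hcl _) (hcl _)
      (fun X hX Y hY hXc hYc => hs.joined _ _ hadj X (hX.trans Finset.sdiff_subset) Y
        (hY.trans Finset.sdiff_subset) hXc hYc)
    obtain ⟨S, M, T, rfl, hS, hM, hT⟩ := split3 (xs := xs) (a := 2 * q) (b := 2 * N - 4 * q)
      (c := 2 * q) (by omega)
    have hc1 : (S ++ (M ++ T)).IsChain (Alt (cl p0.1 \ Z p0.1) (cl p0.2 \ Z p0.2)) :=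
      h2.imp fun _ _ h => h.2
    have hc2 : (S ++ (M ++ T)).IsChain H.Adj := h2.imp fun _ _ h => h.1
    have hnZ : ∀ x ∈ S ++ (M ++ T), ∀ k, x ∉ Z k := by
      intro x hx k hk
      rcases h3 x hx with h | h
      · rw [Finset.mem_sdiff] at h
        have := hs.eq_of_mem h.1 (hZ k hk)
        subst this
        exact h.2 hk
      · rw [Finset.mem_sdiff] at h
        have := hs.eq_of_mem h.1 (hZ k hk)
        subst this
        exact h.2 hk
    -- the two ends
    set E : Finset V := T.toFinset.filter (fun x => x ∈ cl p0.1 \ Z p0.1) with hE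
    set F : Finset V := S'.toFinset.filter (fun x => x ∈ cl p1.2 \ Z p1.2) with hF
    have hTn : T.Nodup := (List.nodup_append.mp (List.nodup_append.mp h1).2.1).2.1
    have hSn' : S'.Nodup := (List.nodup_append.mp hseg.nodup).1
    have hEc : q ≤ E.card := by
      have := (card_side_le hd (hc1.right_of_append.right_of_append)
        (fun x hx => h3 x (by simp [hx])) hTn).2
      rw [← hE] at this
      omega
    have hFc : q ≤ F.card := by
      have := (card_side_le hd1.symm (hseg.Salt.imp fun _ _ h => h.swap)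
        (fun x hx => (hseg.Sside x hx).symm) hSn').2
      rw [← hF] at this
      have hl := hseg.Slen
      omega
    set Av : Finset V := (S' ++ (M' ++ T')).toFinset with hAv
    have hZ'c : ∀ i, 2 * q ≤ (Z i \ Av).card := by
      intro i
      have e1 : (Z i \ Av).card + (Av ∩ Z i).card = (Z i).card := by
        rw [Finset.inter_comm]
        exact Finset.card_sdiff_add_card_inter _ _
      have e2 := hcnt i
      have e3 := hZc i
      simp only [List.length_cons] at hlen
      omega
    have hreach : R.Reachable p0.1 p1.2 := (hr.symm.trans hr1).trans hadj1.reachable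
    obtain ⟨w, hw⟩ := hreach.exists_isPath
    have hDj : Dj p0 p1 := (List.pairwise_cons.mp hpw).1 p1 (by simp)
    obtain ⟨e, heE, f, hfF, zs, hz1, hz2, hz3, hz4⟩ := connector hs (fun i => Z i \ Av)
      (fun i => Finset.sdiff_subset.trans (hZ i)) hZ'c w hw hDj.2.1 E
      (fun x hx => (Finset.mem_sdiff.mp (Finset.mem_filter.mp hx).2).1) hEc F
      (fun x hx => (Finset.mem_sdiff.mp (Finset.mem_filter.mp hx).2).1) hFc
    have heT : e ∈ T := List.mem_toFinset.mp (Finset.mem_filter.mp heE).1
    have hfS : f ∈ S' := List.mem_toFinset.mp (Finset.mem_filter.mp hfF).1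
    obtain ⟨T1, T2, rfl⟩ := List.append_of_mem heT
    obtain ⟨S1, S2, rfl⟩ := List.append_of_mem hfS
    -- the old path and the new path are disjoint
    have hdis : ∀ x ∈ S ++ (M ++ (T1 ++ e :: T2)),
        x ∉ S1 ++ f :: S2 ++ (M' ++ T') := by
      intro x hx hx'
      rcases hmem x hx' with ⟨p, hp, hxp⟩ | ⟨k, hk⟩
      · have hD : Dj p0 p := (List.pairwise_cons.mp hpw).1 p hp
        have hx3 := h3 x hx
        simp only [Finset.mem_sdiff] at hxp hx3
        rcases hx3 with a | a <;> rcases hxp with b | b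
        · exact hD.1 (hs.eq_of_mem a.1 b.1)
        · exact hD.2.1 (hs.eq_of_mem a.1 b.1)
        · exact hD.2.2.1 (hs.eq_of_mem a.1 b.1)
        · exact hD.2.2.2 (hs.eq_of_mem a.1 b.1)
      · exact hnZ x hx k hk
    have hzs : ∀ z ∈ zs, z ∉ S1 ++ f :: S2 ++ (M' ++ T') ∧ ∃ k, z ∈ Z k := by
      intro z hz
      obtain ⟨k, _, hk⟩ := hz3 z hz
      rw [Finset.mem_sdiff, hAv, List.mem_toFinset] at hk
      exact ⟨hk.2, k, hk.1⟩
    refine ⟨pl, List.mem_cons_of_mem _ hpl, S,
      M ++ (T1 ++ (e :: (zs ++ (f :: (S2 ++ M'))))), T', ⟨?_, ?_, hS, hseg.Tlen,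
      hc1.left_of_append, hseg.Talt, fun x hx => h3 x (by simp [hx]), hseg.Tside⟩, ?_, ?_, ?_⟩
    · -- nodup
      have e1 : S ++ ((M ++ (T1 ++ (e :: (zs ++ (f :: (S2 ++ M')))))) ++ T') =
          (S ++ (M ++ (T1 ++ [e]))) ++ (zs ++ (f :: (S2 ++ (M' ++ T')))) := by
        simp
      rw [e1, List.nodup_append]
      refine ⟨?_, ?_, ?_⟩
      · refine h1.sublist ?_
        refine List.Sublist.append_left (List.Sublist.append_left (List.Sublist.append_left ?_ _) _) _
        simp
      · rw [List.nodup_append]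
        refine ⟨hz2, ?_, ?_⟩
        · refine hseg.nodup.sublist ?_
          simp
        · intro z hz y hy hzy
          subst hzy
          apply (hzs z hz).1
          simp only [List.mem_append, List.mem_cons] at hy ⊢
          tauto
      · intro x hx y hy hxy
        subst hxy
        have hx' : x ∈ S ++ (M ++ (T1 ++ e :: T2)) := by
          simp only [List.mem_append, List.mem_cons, List.mem_singleton, List.not_mem_nil, or_false]
            at hx ⊢
          tauto
        rw [List.mem_append] at hy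
        rcases hy with hy | hy
        · obtain ⟨_, k, hk⟩ := hzs x hy
          exact hnZ x hx' k hk
        · apply hdis x hx'
          simp only [List.mem_append, List.mem_cons] at hy ⊢
          tauto
    · -- chain
      have e1 : S ++ ((M ++ (T1 ++ (e :: (zs ++ (f :: (S2 ++ M')))))) ++ T') =
          (S ++ (M ++ T1)) ++ e :: (zs ++ (f :: (S2 ++ (M' ++ T')))) := by
        simp
      rw [e1]
      apply join_chain _ hz1
      · have := hseg.chain
        rw [List.append_assoc, List.cons_append] at this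
        exact this.right_of_append
      · have e2 : S ++ (M ++ (T1 ++ e :: T2)) = (S ++ (M ++ T1)) ++ e :: T2 := by simp
        rw [e2, List.isChain_split] at hc2
        exact hc2.1
    · -- length
      simp only [List.length_append, List.length_cons] at hMlen ⊢
      rw [hM]
      have : (ps.length + 1 + 1) * (2 * N - 4 * q) =
          (ps.length + 1) * (2 * N - 4 * q) + (2 * N - 4 * q) := by ring
      rw [this]
      omega
    · -- membership
      intro x hx
      have hx' : x ∈ S ++ (M ++ (T1 ++ e :: T2)) ∨ x ∈ zs ∨ x ∈ S1 ++ f :: S2 ++ (M' ++ T') := by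
        simp only [List.mem_append, List.mem_cons] at hx ⊢
        tauto
      rcases hx' with hx' | hx' | hx'
      · exact Or.inl ⟨p0, by simp, h3 x hx'⟩
      · exact Or.inr (hzs x hx').2
      · rcases hmem x hx' with ⟨p, hp, hxp⟩ | h
        · exact Or.inl ⟨p, List.mem_cons_of_mem _ hp, hxp⟩
        · exact Or.inr h
    · intro k
      have e1 : ((S ++ ((M ++ (T1 ++ (e :: (zs ++ (f :: (S2 ++ M')))))) ++ T')).toFinset ∩ Z k) ⊆
          (Av ∩ Z k) ∪ (zs.toFinset ∩ Z k) := by
        intro x hx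
        rw [Finset.mem_inter, List.mem_toFinset] at hx
        rw [Finset.mem_union, Finset.mem_inter, Finset.mem_inter, hAv, List.mem_toFinset,
          List.mem_toFinset]
        have hx' : x ∈ S ++ (M ++ (T1 ++ e :: T2)) ∨ x ∈ zs ∨ x ∈ S1 ++ f :: S2 ++ (M' ++ T') := by
          have := hx.1
          simp only [List.mem_append, List.mem_cons] at this ⊢
          tauto
        rcases hx' with hx' | hx' | hx'
        · exact absurd hx.2 (hnZ x hx' k)
        · exact Or.inr ⟨hx', hx.2⟩
        · exact Or.inl ⟨hx', hx.2⟩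
      have e2 : (zs.toFinset ∩ Z k).card ≤ 1 := by
        rw [Finset.card_le_one]
        intro x hx y hy
        rw [Finset.mem_inter, List.mem_toFinset] at hx hy
        exact hz4 k x hx.1 y hy.1 (hZ k hx.2) (hZ k hy.2)
      have e3 := hcnt k
      have e4 := (Finset.card_le_card e1).trans (Finset.card_union_le _ _)
      simp only [List.length_cons]
      omega

open Classical in
/-- **Long cycles from connected matchings.** -/
theorem cycle_of_matching {H : SimpleGraph V} {R : SimpleGraph ι} {cl : ι → Finset V} {q : ℕ}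
    (hs : Sys H R cl q) (hq : 1 ≤ q) {N s : ℕ} (hN : 2 * q < N)
    (hcl : ∀ i, N + 4 * q + s ≤ (cl i).card) (r : ι) (ps : List (ι × ι)) (hps : ps.length = s)
    (hs0 : 0 < s) (hp : ∀ p ∈ ps, R.Adj p.1 p.2 ∧ R.Reachable r p.1) (hpw : ps.Pairwise Dj) :
    HasCycle (s * (2 * N - 4 * q)) H := by
  choose Z hZ hZc using fun i => Finset.exists_subset_card_eq
    (show 2 * q + s ≤ (cl i).card by have := hcl i; omega)
  obtain ⟨p0, ps, rfl⟩ : ∃ p0 ps', ps = p0 :: ps' := by
    cases ps with
    | nil => simp at hps; omega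
    | cons p0 ps => exact ⟨p0, ps, rfl⟩
  simp only [List.length_cons] at hps
  obtain ⟨pl, hpl, S, M, T, hseg, hMlen, hmem, hcnt⟩ := exists_seg hs hq Z hZ hN.le
    (fun i => by
      have h1 := Finset.card_sdiff_add_card_eq_card (hZ i)
      have h2 := hZc i
      have h3 := hcl i
      omega) (s := s) (fun i => (hZc i).ge) r ps p0 hp hpw (by omega)
  obtain ⟨hadj, hr⟩ := hp p0 (by simp)
  obtain ⟨hadj1, hr1⟩ := hp pl hpl
  have hd : Disjoint (cl p0.1 \ Z p0.1) (cl p0.2 \ Z p0.2) :=
    (hs.disj _ _ hadj.ne).mono Finset.sdiff_subset Finset.sdiff_subset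
  have hd1 : Disjoint (cl pl.1 \ Z pl.1) (cl pl.2 \ Z pl.2) :=
    (hs.disj _ _ hadj1.ne).mono Finset.sdiff_subset Finset.sdiff_subset
  set E : Finset V := T.toFinset.filter (fun x => x ∈ cl pl.1 \ Z pl.1) with hE
  set F : Finset V := S.toFinset.filter (fun x => x ∈ cl p0.2 \ Z p0.2) with hF
  have hTn : T.Nodup := (List.nodup_append.mp (List.nodup_append.mp hseg.nodup).2.1).2.1
  have hSn : S.Nodup := (List.nodup_append.mp hseg.nodup).1
  have hEc : q ≤ E.card := by
    have := (card_side_le hd1 hseg.Talt hseg.Tside hTn).2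
    rw [← hE] at this
    have hl := hseg.Tlen
    omega
  have hFc : q ≤ F.card := by
    have := (card_side_le hd.symm (hseg.Salt.imp fun _ _ h => h.swap)
      (fun x hx => (hseg.Sside x hx).symm) hSn).2
    rw [← hF] at this
    have hl := hseg.Slen
    omega
  set Av : Finset V := (S ++ (M ++ T)).toFinset with hAv
  have hZ'c : ∀ i, 2 * q ≤ (Z i \ Av).card := by
    intro i
    have e1 : (Z i \ Av).card + (Av ∩ Z i).card = (Z i).card := by
      rw [Finset.inter_comm]
      exact Finset.card_sdiff_add_card_inter _ _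
    have e2 := hcnt i
    have e3 := hZc i
    omega
  have hne : pl.1 ≠ p0.2 := by
    rcases List.mem_cons.mp hpl with rfl | h
    · exact hadj.ne
    · exact fun h' => ((List.pairwise_cons.mp hpw).1 pl h).2.2.1 h'.symm
  have hreach : R.Reachable pl.1 p0.2 := (hr1.symm.trans hr).trans hadj.reachable
  obtain ⟨w, hw⟩ := hreach.exists_isPath
  obtain ⟨e, heE, f, hfF, zs, hz1, hz2, hz3, hz4⟩ := connector hs (fun i => Z i \ Av)
    (fun i => Finset.sdiff_subset.trans (hZ i)) hZ'c w hw hne E
    (fun x hx => (Finset.mem_sdiff.mp (Finset.mem_filter.mp hx).2).1) hEc F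
    (fun x hx => (Finset.mem_sdiff.mp (Finset.mem_filter.mp hx).2).1) hFc
  have heT : e ∈ T := List.mem_toFinset.mp (Finset.mem_filter.mp heE).1
  have hfS : f ∈ S := List.mem_toFinset.mp (Finset.mem_filter.mp hfF).1
  obtain ⟨T1, T2, rfl⟩ := List.append_of_mem heT
  obtain ⟨S1, S2, rfl⟩ := List.append_of_mem hfS
  have hzs : ∀ z ∈ zs, z ∉ S1 ++ f :: S2 ++ (M ++ (T1 ++ e :: T2)) := by
    intro z hz
    obtain ⟨k, _, hk⟩ := hz3 z hz
    rw [Finset.mem_sdiff, hAv, List.mem_toFinset] at hk
    exact hk.2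
  -- the cycle
  set C : List V := f :: ((S2 ++ (M ++ T1)) ++ e :: zs) with hC
  have hCn : C.Nodup := by
    have e1 : C = (f :: (S2 ++ (M ++ (T1 ++ [e])))) ++ zs := by simp [hC]
    rw [e1, List.nodup_append]
    refine ⟨?_, hz2, ?_⟩
    · refine hseg.nodup.sublist ?_
      have e2 : S1 ++ f :: S2 ++ (M ++ (T1 ++ e :: T2)) =
          S1 ++ (f :: (S2 ++ (M ++ (T1 ++ [e]))) ++ T2) := by simp
      rw [e2]
      exact (List.sublist_append_left _ _).trans (List.sublist_append_right _ _)
    · intro x hx z hz hxz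
      subst hxz
      apply hzs x hz
      simp only [List.mem_append, List.mem_cons, List.mem_singleton, List.not_mem_nil, or_false]
        at hx ⊢
      tauto
  have hCc : (C ++ [f]).IsChain H.Adj := by
    have e1 : C ++ [f] = (f :: (S2 ++ (M ++ T1))) ++ e :: (zs ++ [f]) := by simp [hC]
    rw [e1, List.isChain_split]
    refine ⟨?_, hz1⟩
    have e2 : S1 ++ f :: S2 ++ (M ++ (T1 ++ e :: T2)) =
      S1 ++ ((f :: (S2 ++ (M ++ T1)) ++ e :: T2)) := by simp
    have := hseg.chain
    rw [e2] at this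
    have h2 := this.right_of_append
    rw [List.isChain_split] at h2
    exact h2.1
  have hClen : s * (2 * N - 4 * q) + 2 ≤ C.length := by
    simp only [hC, List.length_cons, List.length_append]
    rw [hps] at hMlen
    omega
  have h3 : 3 ≤ C.length := by
    have h7 : 1 * 2 ≤ s * (2 * N - 4 * q) := Nat.mul_le_mul hs0 (by omega)
    omega
  have hC0 : C ≠ [] := by simp [hC]
  have hch := hCc.left_of_append
  have := hasCycle_of_list H C hCn hch hC0 (by
    rw [List.isChain_append] at hCc
    have h5 := hCc.2.2 (C.getLast hC0) (by simp [List.getLast?_eq_some_getLast hC0]) f (by simp)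
    have h6 : C.head hC0 = f := by simp [hC]
    rw [h6]
    exact h5) h3
  exact this.mono (by omega) le_rfl

end Pool.Agent.H954.AD
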