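import Pool.Agent.H954.AD.Reg

/-!
Dense graphs: if all dense pairs of sets of vertices of `G` are joined by an edge of `H`, then `H`
has a cycle which is almost as long as the average degree of `G`.
-/

open Finset

namespace Pool.Agent.H954.AD

universe u

open Classical in
theorem dense0 (δ C : ℝ) (hδ : 0 < δ) (hδ1 : δ ≤ 1) (hC : 1 ≤ C) :
    ∃ κ K0 : ℝ, 0 < κ ∧ ∀ (V : Type u) [Fintype V] (G H : SimpleGraph V) (a : ℝ), K0 ≤ a →
      (Fintype.card V : ℝ) ≤ C * a → 0 < Fintype.card V →
      a * Fintype.card V ≤ 2 * G.edgeFinset.card →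
      (∀ X Y : Finset V, Disjoint X Y → κ * (Fintype.card V : ℝ) ^ 2 ≤ (G.interedges X Y).card →
        ∃ x ∈ X, ∃ y ∈ Y, H.Adj x y) →
      ∃ l : ℕ, (1 - δ) * a ≤ l ∧ HasCycle l H := by
  set η : ℝ := δ / (8 * C) with hη
  have hη0 : 0 < η := by positivity
  have hηC : η * C = δ / 8 := by rw [hη]; field_simp
  have hη1 : η ≤ 1 / 8 := by nlinarith
  set e : ℝ := η / 1024 with he
  have he0 : 0 < e := by positivity
  obtain ⟨T, κ, hT, hκ, hreg⟩ := reg.{u} η hη0 (by linarith) e he0 le_rfl ⌈4 / η⌉₊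
  have hT0 : (0 : ℝ) < T := by exact_mod_cast hT
  refine ⟨κ, T * (14 + T) / η, hκ, ?_⟩
  intro V _ G H a ha hCa hV hG hH
  set m : ℝ := (Fintype.card V : ℝ) with hm
  have hm0 : 0 < m := by rw [hm]; exact_mod_cast hV
  have hK0 : 0 < T * (14 + T) / η := by positivity
  have ha0 : 0 < a := by linarith
  -- `a ≤ m`
  have ham : a ≤ m := by
    have h1 := G.card_edgeFinset_le_card_choose_two
    have h2 : (2 : ℝ) * G.edgeFinset.card ≤ m * m := by
      have h3 : 2 * G.edgeFinset.card ≤ Fintype.card V * Fintype.card V := by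
        rw [Nat.choose_two_right] at h1
        have h4 := Nat.div_mul_le_self (Fintype.card V * (Fintype.card V - 1)) 2
        have h5 : Fintype.card V * (Fintype.card V - 1) ≤ Fintype.card V * Fintype.card V :=
          Nat.mul_le_mul_left _ (by omega)
        omega
      rw [hm]
      exact_mod_cast h3
    nlinarith
  have hmK : T * (14 + T) ≤ η * m := by
    have h1 : T * (14 + T) / η ≤ m := by linarith
    rw [div_le_iff₀ hη0] at h1
    linarith
  have hTm : (T : ℝ) ≤ η * m := by nlinarith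
  have hTm' : (T : ℝ) * (14 + T) ≤ m := by nlinarith
  have hTV : T ≤ Fintype.card V := by
    have h1 : (T : ℝ) ≤ Fintype.card V := by nlinarith
    exact_mod_cast h1
  obtain ⟨ι, _, cl, R, L, ht1, ht2, hL, ht0, hred⟩ := hreg V G hTV
  set t : ℕ := Fintype.card ι with ht
  have ht0' : (0 : ℝ) < t := by exact_mod_cast ht0
  have htT : (t : ℝ) ≤ T := by exact_mod_cast ht2
  have ht1' : 4 / η ≤ t := (Nat.le_ceil _).trans (by exact_mod_cast ht1)
  have ht1'' : 4 ≤ η * t := by
    rw [div_le_iff₀ hη0] at ht1'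
    linarith
  have hLt : (L : ℝ) * t ≤ m := by
    rw [hm, hL]
    exact_mod_cast Nat.div_mul_le_self _ _
  have hLlow : 2 * (T + 7) ≤ L := by
    rw [hL, Nat.le_div_iff_mul_le ht0]
    have h1 : (2 * (T + 7) * t : ℝ) ≤ m := by nlinarith
    rw [hm] at h1
    exact_mod_cast h1
  have hLlow' : (2 * (T + 7) : ℝ) ≤ L := by exact_mod_cast hLlow
  set x : ℝ := (L : ℝ) + 1 with hx
  have hx0 : 0 < x := by positivity
  have hxt : x * t ≤ m + t := by rw [hx]; linarith
  have hxt2 : x * t ≤ (1 + η) * m := by nlinarith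
  set q : ℕ := ⌈e * x⌉₊ with hq
  have hq1 : 1 ≤ q := Nat.one_le_iff_ne_zero.mpr (by
    rw [hq]
    exact (Nat.ceil_pos.mpr (by positivity)).ne')
  have hqx : (q : ℝ) ≤ e * x + 1 := (Nat.ceil_lt_add_one (by positivity)).le
  have hqx' : e * x ≤ q := Nat.le_ceil _
  set s : ℕ := R.edgeFinset.card / t with hs
  have hst : s * t ≤ R.edgeFinset.card := Nat.div_mul_le_self _ _
  have hst' : (R.edgeFinset.card : ℝ) ≤ (s + 1) * t := by
    have : R.edgeFinset.card ≤ (s + 1) * t := by
      rw [mul_comm]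
      exact (Nat.lt_mul_div_succ _ ht0).le
    exact_mod_cast this
  have h2s : 2 * s ≤ t := by
    have h1 := R.card_edgeFinset_le_card_choose_two
    rw [Nat.choose_two_right, ← ht] at h1
    have h4 := Nat.div_mul_le_self (t * (t - 1)) 2
    have h5 : t * (t - 1) ≤ t * t := Nat.mul_le_mul_left _ (by omega)
    have h6 : (2 * s) * t ≤ t * t := by
      calc (2 * s) * t = s * t * 2 := by ring
        _ ≤ R.edgeFinset.card * 2 := Nat.mul_le_mul_right _ hst
        _ ≤ t * (t - 1) / 2 * 2 := Nat.mul_le_mul_right _ h1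
        _ ≤ t * (t - 1) := h4
        _ ≤ t * t := h5
    exact Nat.le_of_mul_le_mul_right h6 ht0
  have h2s' : 2 * (s : ℝ) ≤ t := by exact_mod_cast h2s
  have hs0' : (0 : ℝ) ≤ s := Nat.cast_nonneg s
  -- the main estimate
  have hmain : a ≤ 2 * s * x + 5 * η * m := by
    have h1 := hred.few
    rw [← hm, ← hx] at h1
    have h2 : a * m ≤ η * m ^ 2 + 2 * ((s + 1) * t) * x ^ 2 := by
      have : (2 : ℝ) * R.edgeFinset.card * x ^ 2 ≤ 2 * ((s + 1) * t) * x ^ 2 := by
        apply mul_le_mul_of_nonneg_right _ (by positivity)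
        linarith
      linarith
    have h3 : 2 * ((s + 1) * t) * x ^ 2 ≤ (2 * (s + 1) * x * (1 + η)) * m := by
      have : 2 * ((s + 1) * t) * x ^ 2 = (2 * (s + 1) * x) * (x * t) := by ring
      rw [this]
      calc (2 * (s + 1) * x) * (x * t) ≤ (2 * (s + 1) * x) * ((1 + η) * m) :=
            mul_le_mul_of_nonneg_left hxt2 (by positivity)
        _ = _ := by ring
    have h4 : a * m ≤ (η * m + 2 * (s + 1) * x * (1 + η)) * m := by nlinarith
    have h5 : a ≤ η * m + 2 * (s + 1) * x * (1 + η) := le_of_mul_le_mul_right h4 hm0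
    have h6 : 2 * x ≤ η * m := by
      have h7 : 2 * x * 2 ≤ (η * m) * (1 + η) := by
        calc 2 * x * 2 = 4 * x := by ring
          _ ≤ (η * t) * x := mul_le_mul_of_nonneg_right ht1'' hx0.le
          _ = η * (x * t) := by ring
          _ ≤ η * ((1 + η) * m) := mul_le_mul_of_nonneg_left hxt2 hη0.le
          _ = _ := by ring
      nlinarith [mul_pos hη0 hm0]
    have h8 : 2 * s * x ≤ (1 + η) * m := by
      calc 2 * s * x ≤ t * x := mul_le_mul_of_nonneg_right h2s' hx0.le
        _ = x * t := by ring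
        _ ≤ _ := hxt2
    have h9 : η * (2 * s * x) ≤ η * (2 * m) := by
      apply mul_le_mul_of_nonneg_left _ hη0.le
      nlinarith
    have h10 : η * (2 * x) ≤ η * m := by
      apply mul_le_mul_of_nonneg_left _ hη0.le
      nlinarith
    nlinarith
  have hηm : η * m ≤ δ / 8 * a := by
    calc η * m ≤ η * (C * a) := mul_le_mul_of_nonneg_left hCa hη0.le
      _ = δ / 8 * a := by rw [← hηC]; ring
  have hspos : 0 < s := by
    by_contra h
    have h0 : s = 0 := by omega
    rw [h0] at hmain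
    simp only [Nat.cast_zero, mul_zero, zero_mul, zero_add] at hmain
    nlinarith
  have hLN : 6 * q + s < L := by
    have h1 : (6 * q + s : ℝ) < L := by
      have : e ≤ 1 / 8192 := by rw [he]; linarith
      nlinarith
    exact_mod_cast h1
  obtain ⟨N, hN⟩ : ∃ N, L = N + 4 * q + s := ⟨L - 4 * q - s, by omega⟩
  -- the matching
  obtain ⟨r, ps, hps, hps1, hps2⟩ := exists_matching R hspos ht0 hst
  have hsys : Sys H R cl q := by
    refine ⟨hred.disj, ?_⟩
    intro i j hij X hX Y hY hXc hYc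
    have hXc' : (q : ℝ) ≤ X.card := by exact_mod_cast hXc
    have hYc' : (q : ℝ) ≤ Y.card := by exact_mod_cast hYc
    exact hH X Y ((hred.disj i j hij.ne).mono hX hY) (hred.dense i j hij X hX Y hY
      (by rw [← hx]; linarith) (by rw [← hx]; linarith))
  have hcyc := cycle_of_matching hsys hq1 (N := N) (s := s) (by omega)
    (fun i => by rw [← hN]; exact (hred.sz i).1) r ps hps hspos hps1 hps2
  refine ⟨_, ?_, hcyc⟩
  have h1 : ((s * (2 * N - 4 * q) : ℕ) : ℝ) = 2 * s * x - s * (2 + 12 * q + 2 * s) := by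
    have h2 : 2 * N - 4 * q = 2 * L - (12 * q + 2 * s) := by omega
    rw [h2, Nat.cast_mul, Nat.cast_sub (by omega)]
    push_cast
    rw [hx]
    ring
  rw [h1]
  have h3 : (s : ℝ) * (2 + 12 * q + 2 * s) ≤ 2 * (η * m) := by
    have h4 : (s : ℝ) ≤ t / 2 := by linarith
    have h5 : (2 + 12 * (q : ℝ) + 2 * s) ≤ 14 + 12 * (e * x) + t := by linarith
    have h6 : (s : ℝ) * (2 + 12 * q + 2 * s) ≤ t / 2 * (14 + 12 * (e * x) + t) :=
      mul_le_mul h4 h5 (by positivity) (by positivity)
    have h7 : (t : ℝ) / 2 * (14 + 12 * (e * x) + t) = 6 * e * (x * t) + t * (14 + t) / 2 := by ring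
    have h8 : 6 * e * (x * t) ≤ 6 * e * ((1 + η) * m) :=
      mul_le_mul_of_nonneg_left hxt2 (by positivity)
    have h9 : (t : ℝ) * (14 + t) ≤ T * (14 + T) :=
      mul_le_mul htT (by linarith) (by positivity) (by positivity)
    have h10 : 6 * e * ((1 + η) * m) ≤ η * m := by
      have : 6 * (1 + η) / 1024 ≤ 1 := by linarith
      calc 6 * e * ((1 + η) * m) = (6 * (1 + η) / 1024) * (η * m) := by rw [he]; ring
        _ ≤ 1 * (η * m) := mul_le_mul_of_nonneg_right this (by positivity)
        _ = _ := one_mul _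
    linarith
  nlinarith

end Pool.Agent.H954.AD
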