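import Pool.Agent.H954.AD.Basic

/-!
Rooted spanning forests of a graph, given by the parents and the depths.  Every finite graph has
a rooted spanning forest such that every edge joins a vertex to one of its ancestors.
-/

open Finset

namespace Pool.Agent.H954.AD

variable {V : Type*}

/-- `f v` is the parent of `v` (`none` if `v` is a root) and `d v` is the depth of `v`. -/
structure IsForest (f : V → Option V) (d : V → ℕ) : Prop where
  root : ∀ v, f v = none → d v = 0
  step : ∀ v u, f v = some u → d v = d u + 1

/-- The ancestor of `v` at distance `i`. -/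
def up (f : V → Option V) : ℕ → V → Option V
  | 0, v => some v
  | i + 1, v => (f v).bind (up f i)

/-- `a` is an ancestor of `v` (or `v` itself). -/
def Anc (f : V → Option V) (a v : V) : Prop := ∃ i, up f i v = some a

section basic

variable {f : V → Option V} {d : V → ℕ}

lemma up_zero (v : V) : up f 0 v = some v := rfl

lemma up_succ (i : ℕ) (v : V) : up f (i + 1) v = (f v).bind (up f i) := rfl

lemma up_add (i j : ℕ) (v : V) : up f (i + j) v = (up f i v).bind (up f j) := by
  induction i generalizing v with
  | zero => simp [up_zero]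
  | succ i ih =>
    rw [Nat.add_right_comm, up_succ, up_succ]
    cases h : f v with
    | none => simp
    | some u => simp [ih]

lemma up_add_of {i j : ℕ} {v a b : V} (h1 : up f i v = some a) (h2 : up f j a = some b) :
    up f (i + j) v = some b := by
  rw [up_add, h1]; exact h2

lemma up_depth (hf : IsForest f d) {i : ℕ} {v a : V} (h : up f i v = some a) :
    d v = d a + i := by
  induction i generalizing v with
  | zero =>
    rw [up_zero] at h
    cases h; rfl
  | succ i ih =>
    rw [up_succ] at h
    cases hv : f v with
    | none => rw [hv] at h; simp at h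
    | some u =>
      rw [hv] at h
      have := ih (v := u) h
      rw [hf.step v u hv, this]
      omega

lemma up_exists (hf : IsForest f d) {i : ℕ} {v : V} (h : i ≤ d v) : ∃ a, up f i v = some a := by
  induction i generalizing v with
  | zero => exact ⟨v, rfl⟩
  | succ i ih =>
    cases hv : f v with
    | none =>
      have := hf.root v hv
      omega
    | some u =>
      have h1 := hf.step v u hv
      obtain ⟨a, ha⟩ := ih (v := u) (by omega)
      exact ⟨a, by rw [up_succ, hv]; exact ha⟩

lemma Anc.refl (v : V) : Anc f v v := ⟨0, rfl⟩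

lemma Anc.trans {a b c : V} (h1 : Anc f a b) (h2 : Anc f b c) : Anc f a c := by
  obtain ⟨i, hi⟩ := h1
  obtain ⟨j, hj⟩ := h2
  exact ⟨j + i, up_add_of hj hi⟩

lemma Anc.depth_le (hf : IsForest f d) {a v : V} (h : Anc f a v) : d a ≤ d v := by
  obtain ⟨i, hi⟩ := h
  have := up_depth hf hi
  omega

lemma Anc.eq_of_depth (hf : IsForest f d) {a v : V} (h : Anc f a v) (hd : d v ≤ d a) : a = v := by
  obtain ⟨i, hi⟩ := h
  have := up_depth hf hi
  have hi0 : i = 0 := by omega
  subst hi0
  rw [up_zero] at hi
  cases hi; rfl

lemma Anc.antisymm (hf : IsForest f d) {a b : V} (h1 : Anc f a b) (h2 : Anc f b a) : a = b :=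
  h1.eq_of_depth hf (h2.depth_le hf)

lemma Anc.total {a b v : V} (h1 : Anc f a v) (h2 : Anc f b v) : Anc f a b ∨ Anc f b a := by
  obtain ⟨i, hi⟩ := h1
  obtain ⟨j, hj⟩ := h2
  rcases le_total i j with h | h
  · obtain ⟨m, rfl⟩ := Nat.exists_eq_add_of_le h
    rw [up_add, hi] at hj
    exact Or.inr ⟨m, hj⟩
  · obtain ⟨m, rfl⟩ := Nat.exists_eq_add_of_le h
    rw [up_add, hj] at hi
    exact Or.inl ⟨m, hi⟩

/-- `a` is an ancestor of `v ≠ a` iff it is an ancestor of the parent. -/
lemma anc_iff_of_parent {a v u : V} (hv : f v = some u) (hav : a ≠ v) :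
    Anc f a v ↔ Anc f a u := by
  constructor
  · rintro ⟨i, hi⟩
    cases i with
    | zero => rw [up_zero] at hi; cases hi; exact absurd rfl hav
    | succ i =>
      rw [up_succ, hv] at hi
      exact ⟨i, hi⟩
  · rintro ⟨i, hi⟩
    refine ⟨i + 1, ?_⟩
    rw [up_succ, hv]; exact hi

lemma not_anc_of_root {a v : V} (hv : f v = none) (hav : a ≠ v) : ¬ Anc f a v := by
  rintro ⟨i, hi⟩
  cases i with
  | zero => rw [up_zero] at hi; cases hi; exact hav rfl
  | succ i =>
    rw [up_succ, hv] at hi
    simp at hi

/-- The path from `v` up to the ancestor at distance `i`. -/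
lemma exists_list {i : ℕ} {v a : V} (h : up f i v = some a) :
    ∃ l : List V, l.length = i + 1 ∧ l.IsChain (fun x y => f x = some y) ∧
      l.head? = some v ∧ l.getLast? = some a := by
  induction i generalizing v with
  | zero =>
    rw [up_zero] at h
    cases h
    exact ⟨[a], by simp, by simp, by simp, by simp⟩
  | succ i ih =>
    rw [up_succ] at h
    cases hv : f v with
    | none => rw [hv] at h; simp at h
    | some u =>
      rw [hv] at h
      obtain ⟨l, h1, h2, h3, h4⟩ := ih (v := u) h
      obtain ⟨l', rfl⟩ : ∃ l', l = u :: l' := by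
        cases l with
        | nil => simp at h3
        | cons x l' => simp at h3; exact ⟨l', by rw [h3]⟩
      refine ⟨v :: u :: l', by simp at h1 ⊢; omega, ?_, by simp, ?_⟩
      · rw [List.isChain_cons_cons]
        exact ⟨hv, h2⟩
      · rw [List.getLast?_cons_cons]; exact h4

/-- A long edge of a graph to an ancestor in a spanning forest gives a long cycle. -/
lemma hasCycle_of_up (hf : IsForest f d) (H : SimpleGraph V)
    (hH : ∀ v u, f v = some u → H.Adj v u) {i : ℕ} {v a : V} (h : up f i v = some a)
    (hi : 2 ≤ i) (hva : H.Adj v a) : HasCycle (i + 1) H := by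
  obtain ⟨l, h1, h2, h3, h4⟩ := exists_list h
  have h0 : l ≠ [] := by
    rintro rfl
    simp at h1
  have hch : l.IsChain H.Adj := h2.imp fun x y hxy => hH x y hxy
  have hpw : l.Pairwise (fun x y => d y < d x) := by
    have : IsTrans V (fun x y => d y < d x) := ⟨fun a b c h1 h2 => lt_trans h2 h1⟩
    rw [← List.isChain_iff_pairwise]
    exact h2.imp fun x y hxy => by
      have := hf.step x y hxy
      omega
  have hnd : l.Nodup := hpw.imp fun {x y} hxy => by
    rintro rfl
    exact lt_irrefl _ hxy
  have hhead : l.head h0 = v := by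
    rw [List.head?_eq_some_head h0] at h3
    exact Option.some.inj h3
  have hlast : l.getLast h0 = a := by
    rw [List.getLast?_eq_some_getLast h0] at h4
    exact Option.some.inj h4
  have := hasCycle_of_list H l hnd hch h0 (by rw [hhead, hlast]; exact hva.symm) (by omega)
  rwa [h1] at this

end basic

section normal

variable [Fintype V]

lemma depth_lt {f : V → Option V} {d : V → ℕ} (hf : IsForest f d) (v : V) :
    d v < Fintype.card V := by
  classical
  choose g hg using fun i : Fin (d v + 1) => up_exists hf (i := i) (v := v) (by omega)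
  have hinj : Function.Injective g := by
    intro i j hij
    have h1 := up_depth hf (hg i)
    have h2 := up_depth hf (hg j)
    rw [hij] at h1
    ext
    omega
  have := Fintype.card_le_of_injective g hinj
  simp at this
  omega

/-- Every finite graph has a spanning forest all of whose edges join comparable vertices. -/
theorem exists_normal (H : SimpleGraph V) : ∃ (f : V → Option V) (d : V → ℕ), IsForest f d ∧
    (∀ v u, f v = some u → H.Adj v u) ∧ ∀ u v, H.Adj u v → Anc f u v ∨ Anc f v u := by
  classical
  suffices h : ∀ (n : ℕ) (f : V → Option V) (d : V → ℕ), IsForest f d →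
      (∀ v u, f v = some u → H.Adj v u) → Fintype.card V * Fintype.card V - ∑ v, d v = n →
      ∃ (f : V → Option V) (d : V → ℕ), IsForest f d ∧
    (∀ v u, f v = some u → H.Adj v u) ∧ ∀ u v, H.Adj u v → Anc f u v ∨ Anc f v u from
    h _ (fun _ => none) (fun _ => 0) ⟨fun _ _ => rfl, fun v u h => by simp at h⟩
      (fun v u h => by simp at h) rfl
  intro n
  induction n using Nat.strong_induction_on with
  | _ n ih =>
  intro f d hf hH hn
  by_cases hnorm : ∀ u v, H.Adj u v → Anc f u v ∨ Anc f v u
  · exact ⟨f, d, hf, hH, hnorm⟩
  push Not at hnorm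
  obtain ⟨u, v, huv, hnot1, hnot2, hle⟩ : ∃ u v, H.Adj u v ∧ ¬ Anc f u v ∧ ¬ Anc f v u ∧
      d v ≤ d u := by
    obtain ⟨u, v, huv, h1, h2⟩ := hnorm
    rcases le_total (d v) (d u) with h | h
    · exact ⟨u, v, huv, h1, h2, h⟩
    · exact ⟨v, u, huv.symm, h2, h1, h⟩
  set f' : V → Option V := Function.update f v (some u) with hf'
  set d' : V → ℕ := fun w => if Anc f v w then d w + (d u + 1 - d v) else d w with hd'
  have hv' : f' v = some u := by rw [hf', Function.update_self]
  have hw' : ∀ w, w ≠ v → f' w = f w := fun w hw => by rw [hf', Function.update_of_ne hw]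
  have hdv : d' v = d u + 1 := by
    simp only [hd', if_pos (Anc.refl v)]
    omega
  have hdu : d' u = d u := by simp only [hd', if_neg hnot2]
  have hF : IsForest f' d' := by
    refine ⟨?_, ?_⟩
    · intro w hw
      have hwv : w ≠ v := by
        rintro rfl
        rw [hv'] at hw
        simp at hw
      rw [hw' w hwv] at hw
      simp only [hd', if_neg (not_anc_of_root hw hwv.symm)]
      exact hf.root w hw
    · intro w x hw
      by_cases hwv : w = v
      · subst hwv
        rw [hv'] at hw
        cases hw
        rw [hdv, hdu]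
      · rw [hw' w hwv] at hw
        have h1 := hf.step w x hw
        have h2 := anc_iff_of_parent hw (Ne.symm hwv)
        by_cases h3 : Anc f v w
        · simp only [hd', if_pos h3, if_pos (h2.mp h3)]
          omega
        · simp only [hd', if_neg h3, if_neg (fun h => h3 (h2.mpr h))]
          exact h1
  have hH' : ∀ w x, f' w = some x → H.Adj w x := by
    intro w x hw
    by_cases hwv : w = v
    · subst hwv
      rw [hv'] at hw
      cases hw
      exact huv.symm
    · rw [hw' w hwv] at hw
      exact hH w x hw
  have hsum : ∑ w, d w < ∑ w, d' w := by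
    apply Finset.sum_lt_sum
    · intro w _
      simp only [hd']
      split_ifs <;> omega
    · exact ⟨v, Finset.mem_univ _, by rw [hdv]; omega⟩
  have hbd : ∑ w, d' w ≤ Fintype.card V * Fintype.card V := by
    calc ∑ w, d' w ≤ ∑ _w : V, Fintype.card V :=
          Finset.sum_le_sum fun w _ => (depth_lt hF w).le
      _ = Fintype.card V * Fintype.card V := by simp
  exact ih (Fintype.card V * Fintype.card V - ∑ w, d' w) (by omega) f' d' hF hH' rfl

end normal

end Pool.Agent.H954.AD
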