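import Pool.Agent.H954.AD.Local

/-!
The union bound over all rooted spanning forests: if every rooted spanning forest leaves many edges
of `G` which are not edges to an ancestor at distance less than `l`, the random subgraph of `G` has
a cycle of length greater than `l`.
-/

open Finset

namespace Pool.Agent.H954.AD

variable {V : Type*} [Fintype V]

open Classical in
/-- The edges of the forest. -/
noncomputable def forestEdges (f : V → Option V) : Finset (Sym2 V) :=
  (univ.filter fun z : V × V => f z.1 = some z.2).image fun z => s(z.1, z.2)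

open Classical in
/-- The vertices which are not roots. -/
noncomputable def nonroots (f : V → Option V) : Finset V := univ.filter fun v => f v ≠ none

open Classical in
lemma card_forestEdges {f : V → Option V} {d : V → ℕ} (hf : IsForest f d) :
    (forestEdges f).card = (nonroots f).card := by
  unfold forestEdges
  rw [Finset.card_image_of_injOn]
  · refine Finset.card_bij (fun z _ => z.1) ?_ ?_ ?_
    · intro z hz
      simp only [Finset.mem_filter, Finset.mem_univ, true_and] at hz
      simp only [nonroots, Finset.mem_filter, Finset.mem_univ, true_and]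
      rw [hz]; simp
    · rintro ⟨x, a⟩ hz ⟨y, b⟩ hz' h
      simp only [Finset.mem_filter, Finset.mem_univ, true_and] at hz hz' h
      subst h
      rw [hz] at hz'
      cases hz'
      rfl
    · intro v hv
      simp only [nonroots, Finset.mem_filter, Finset.mem_univ, true_and] at hv
      obtain ⟨u, hu⟩ := Option.ne_none_iff_exists'.mp hv
      exact ⟨(v, u), by simp [hu], rfl⟩
  · rintro ⟨x, a⟩ hz ⟨y, b⟩ hz' h
    rw [Finset.mem_coe, Finset.mem_filter] at hz hz'
    simp only [Finset.mem_univ, true_and] at hz hz' h
    rw [Sym2.eq_iff] at h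
    rcases h with ⟨rfl, rfl⟩ | ⟨rfl, rfl⟩
    · rfl
    · have h1 := hf.step _ _ hz
      have h2 := hf.step _ _ hz'
      omega

open Classical in
/-- The edges of `G` which are not edges to an ancestor at distance less than `l`. -/
noncomputable def farEdges (G : SimpleGraph V) (f : V → Option V) (l : ℕ) : Finset (Sym2 V) :=
  G.edgeFinset.filter fun e => ¬ ∃ x a, a ∈ upm G f l x ∧ e = s(x, a)

open Classical in
lemma card_edges_le (G : SimpleGraph V) (f : V → Option V) (l : ℕ) :
    G.edgeFinset.card ≤ (farEdges G f l).card + ∑ x, (upm G f l x).card := by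
  rw [← Finset.card_sigma]
  have h : G.edgeFinset ⊆ farEdges G f l ∪
      ((univ.sigma fun x => upm G f l x).image fun z : (_ : V) × V => s(z.1, z.2)) := by
    intro e he
    rw [Finset.mem_union]
    by_cases h : ∃ x a, a ∈ upm G f l x ∧ e = s(x, a)
    · right
      obtain ⟨x, a, ha, rfl⟩ := h
      rw [Finset.mem_image]
      exact ⟨⟨x, a⟩, by simpa using ha, rfl⟩
    · left
      exact Finset.mem_filter.mpr ⟨he, h⟩
  exact (Finset.card_le_card h).trans ((Finset.card_union_le _ _).trans
    (Nat.add_le_add_left Finset.card_image_le _))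

lemma one_add_le {c x : ℝ} (hc0 : 0 < c) (hc1 : c ≤ 1) (_hx : 0 ≤ x) :
    1 + x ≤ (1 / c) * Real.exp (c * x) := by
  rw [div_mul_eq_mul_div, one_mul, le_div_iff₀ hc0]
  have := Real.add_one_le_exp (c * x)
  nlinarith

open Classical in
lemma sum_forest_le (G : SimpleGraph V) {p : ℝ} (hp0 : 0 ≤ p) (I : Finset (V → Option V))
    (hI : ∀ f ∈ I, ∀ v u, f v = some u → G.Adj v u) {c : ℝ} (hc0 : 0 < c) (hc1 : c ≤ 1) :
    ∑ f ∈ I, p ^ (nonroots f).card ≤
      Real.exp (Fintype.card V * Real.log (1 / c) + 2 * c * p * G.edgeFinset.card) := by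
  set T : V → Finset (Option V) := fun v => insert none ((G.neighborFinset v).image some) with hT
  have h1 : ∀ f : V → Option V, p ^ (nonroots f).card = ∏ v, if f v = none then 1 else p := by
    intro f
    rw [Finset.prod_ite]
    simp only [Finset.prod_const_one, one_mul, Finset.prod_const]
    rfl
  have h2 : I ⊆ Fintype.piFinset T := by
    intro f hf
    rw [Fintype.mem_piFinset]
    intro v
    rw [hT, Finset.mem_insert]
    cases hv : f v with
    | none => exact Or.inl rfl
    | some u =>
      right
      rw [Finset.mem_image]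
      exact ⟨u, by rw [SimpleGraph.mem_neighborFinset]; exact hI f hf v u hv, rfl⟩
  have h3 : ∑ f ∈ I, p ^ (nonroots f).card ≤
      ∑ f ∈ Fintype.piFinset T, ∏ v, if f v = none then 1 else p := by
    rw [Finset.sum_congr rfl fun f _ => h1 f]
    apply Finset.sum_le_sum_of_subset_of_nonneg h2
    intro f _ _
    apply Finset.prod_nonneg
    intro v _
    split_ifs
    · exact zero_le_one
    · exact hp0
  refine h3.trans ?_
  rw [← Finset.prod_univ_sum T (fun _ o => if o = none then (1 : ℝ) else p)]
  have h4 : ∀ v, ∑ o ∈ T v, (if o = none then (1 : ℝ) else p) = 1 + p * G.degree v := by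
    intro v
    rw [hT]
    simp only
    rw [Finset.sum_insert (by simp), if_pos rfl]
    congr 1
    rw [Finset.sum_image (fun a _ b _ h => Option.some.inj h)]
    simp only [reduceCtorEq, if_false, Finset.sum_const, SimpleGraph.card_neighborFinset_eq_degree,
      nsmul_eq_mul]
    ring
  rw [Finset.prod_congr rfl fun v _ => h4 v]
  have h5 : ∏ v, (1 + p * (G.degree v : ℝ)) ≤
      ∏ v, ((1 / c) * Real.exp (c * (p * (G.degree v : ℝ)))) := by
    apply Finset.prod_le_prod
    · intro v _; positivity
    · intro v _
      exact one_add_le hc0 hc1 (by positivity)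
  refine h5.trans (le_of_eq ?_)
  rw [Finset.prod_mul_distrib, ← Real.exp_sum, Finset.prod_const, Finset.card_univ, Real.exp_add]
  congr 1
  · rw [mul_comm, Real.exp_mul, Real.exp_log (by positivity), Real.rpow_natCast]
  · congr 1
    have h6 := G.sum_degrees_eq_twice_card_edges
    have h7 : ∑ v, (G.degree v : ℝ) = 2 * G.edgeFinset.card := by exact_mod_cast h6
    rw [← Finset.mul_sum, ← Finset.mul_sum, h7]
    ring

open Classical in
/-- **The union bound.** -/
theorem union_bound (G : SimpleGraph V) {p : ℝ} (hp0 : 0 ≤ p) (hp1 : p ≤ 1) {l : ℕ} (hl : 2 ≤ l)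
    {B c : ℝ} (hc0 : 0 < c) (hc1 : c ≤ 1)
    (hB : ∀ (f : V → Option V) (d : V → ℕ), IsForest f d → (∀ v u, f v = some u → G.Adj v u) →
      B ≤ (farEdges G f l).card) :
    wt G.edgeFinset p (fun S => ¬ HasCycle (l + 1) (SimpleGraph.fromEdgeSet (S : Set (Sym2 V)))) ≤
      Real.exp (Fintype.card V * Real.log (1 / c) + 2 * c * p * G.edgeFinset.card - p * B) := by
  set I : Finset (V → Option V) := univ.filter fun f =>
    (∃ d : V → ℕ, IsForest f d) ∧ ∀ v u, f v = some u → G.Adj v u with hI
  have hmemI : ∀ f, f ∈ I ↔ (∃ d : V → ℕ, IsForest f d) ∧ ∀ v u, f v = some u → G.Adj v u := by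
    intro f
    rw [hI]
    simp only [Finset.mem_filter, Finset.mem_univ, true_and]
  have h1 := wt_union (E := G.edgeFinset) hp0 hp1
    (P := fun S => ¬ HasCycle (l + 1) (SimpleGraph.fromEdgeSet (S : Set (Sym2 V)))) I
    (fun f S => forestEdges f ⊆ S ∧ Disjoint S (farEdges G f l)) (by
      intro S hS hno
      obtain ⟨f, d, hf, hfS, hcomp⟩ := exists_normal (SimpleGraph.fromEdgeSet (S : Set (Sym2 V)))
      have hSG : ∀ x y, (SimpleGraph.fromEdgeSet (S : Set (Sym2 V))).Adj x y → G.Adj x y := by
        intro x y hxy
        rw [SimpleGraph.fromEdgeSet_adj] at hxy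
        have := hS (Finset.mem_coe.mp hxy.1)
        rwa [SimpleGraph.mem_edgeFinset, SimpleGraph.mem_edgeSet] at this
      refine ⟨f, (hmemI f).mpr ⟨⟨d, hf⟩, fun v u h => hSG v u (hfS v u h)⟩, ?_, ?_⟩
      · intro e he
        simp only [forestEdges, Finset.mem_image, Finset.mem_filter, Finset.mem_univ,
          true_and] at he
        obtain ⟨z, hz, rfl⟩ := he
        have := hfS _ _ hz
        rw [SimpleGraph.fromEdgeSet_adj] at this
        exact this.1
      · rw [Finset.disjoint_left]
        intro e heS heF
        simp only [farEdges, Finset.mem_filter] at heF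
        apply heF.2
        induction e with
        | h x y =>
        have hG : G.Adj x y := by
          have := hS heS
          rwa [SimpleGraph.mem_edgeFinset, SimpleGraph.mem_edgeSet] at this
        have hadj : (SimpleGraph.fromEdgeSet (S : Set (Sym2 V))).Adj x y := by
          rw [SimpleGraph.fromEdgeSet_adj]
          exact ⟨heS, hG.ne⟩
        have key : ∀ x y, (SimpleGraph.fromEdgeSet (S : Set (Sym2 V))).Adj x y → Anc f y x →
            y ∈ upm G f l x := by
          rintro x y hxy ⟨i, hi⟩
          simp only [upm, Finset.mem_filter, Finset.mem_univ, true_and]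
          refine ⟨hSG x y hxy, i, ?_, hi⟩
          by_contra hil
          push Not at hil
          exact hno ((hasCycle_of_up hf _ hfS hi (by omega) hxy).mono (by omega) le_rfl)
        rcases hcomp x y hadj with h | h
        · exact ⟨y, x, key y x hadj.symm h, Sym2.eq_swap⟩
        · exact ⟨x, y, key x y hadj h, rfl⟩)
  refine h1.trans ?_
  have h2 : ∀ f ∈ I, wt G.edgeFinset p (fun S => forestEdges f ⊆ S ∧ Disjoint S (farEdges G f l)) ≤
      p ^ (nonroots f).card * Real.exp (-(p * B)) := by
    intro f hfI
    obtain ⟨⟨d, hf⟩, hG⟩ := (hmemI f).mp hfI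
    rw [wt_cyl (E := G.edgeFinset) (X := forestEdges f) (Y := farEdges G f l), card_forestEdges hf]
    · apply mul_le_mul_of_nonneg_left _ (pow_nonneg hp0 _)
      refine (one_sub_pow_le_exp hp1 _).trans ?_
      rw [Real.exp_le_exp]
      have := hB f d hf hG
      nlinarith
    · intro e he
      simp only [forestEdges, Finset.mem_image, Finset.mem_filter, Finset.mem_univ,
        true_and] at he
      obtain ⟨z, hz, rfl⟩ := he
      rw [SimpleGraph.mem_edgeFinset, SimpleGraph.mem_edgeSet]
      exact hG _ _ hz
    · exact Finset.filter_subset _ _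
    · rw [Finset.disjoint_left]
      intro e he heF
      simp only [forestEdges, Finset.mem_image, Finset.mem_filter, Finset.mem_univ,
        true_and] at he
      obtain ⟨z, hz, rfl⟩ := he
      simp only [farEdges, Finset.mem_filter] at heF
      apply heF.2
      refine ⟨z.1, z.2, ?_, rfl⟩
      simp only [upm, Finset.mem_filter, Finset.mem_univ, true_and]
      refine ⟨hG _ _ hz, 1, by omega, ?_⟩
      rw [up_succ, hz]
      rfl
  refine (Finset.sum_le_sum h2).trans ?_
  rw [← Finset.sum_mul]
  have h3 := sum_forest_le G hp0 I (fun f hf => ((hmemI f).mp hf).2) hc0 hc1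
  refine (mul_le_mul_of_nonneg_right h3 (Real.exp_pos _).le).trans (le_of_eq ?_)
  rw [← Real.exp_add]
  congr 1

end Pool.Agent.H954.AD
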