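import Pool.Agent.H954.AD.Dense
import Pool.Agent.H954.AD.UB

/-!
Dense sets of vertices: transfer of `dense0`, and the probability that all dense pairs of sets of
vertices are joined by an edge of the random subgraph.
-/

open Finset

namespace Pool.Agent.H954.AD

universe u

lemma HasCycle.map_inj {V W : Type*} {H : SimpleGraph V} {H' : SimpleGraph W} {l : ℕ}
    (h : HasCycle l H) (f : H →g H') (hf : Function.Injective f) : HasCycle l H' := by
  obtain ⟨v, c, hc, hl⟩ := h
  refine ⟨f v, c.map f, (SimpleGraph.Walk.isCycle_map_iff_of_injective hf).mpr hc, ?_⟩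
  rw [SimpleGraph.Walk.length_map]
  exact hl

open Classical in
theorem dense1 (δ C : ℝ) (hδ : 0 < δ) (hδ1 : δ ≤ 1) (hC : 1 ≤ C) :
    ∃ κ K0 : ℝ, 0 < κ ∧ ∀ (V : Type u) [Fintype V] (G H : SimpleGraph V) (W : Finset V) (a : ℝ),
      K0 ≤ a → (W.card : ℝ) ≤ C * a → W.Nonempty → a * W.card ≤ 2 * (edgesIn G W).card →
      (∀ X Y : Finset V, X ⊆ W → Y ⊆ W → Disjoint X Y →
        κ * (W.card : ℝ) ^ 2 ≤ (G.interedges X Y).card → ∃ x ∈ X, ∃ y ∈ Y, H.Adj x y) →
      ∃ l : ℕ, (1 - δ) * a ≤ l ∧ HasCycle l H := by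
  obtain ⟨κ, K0, hκ, h⟩ := dense0.{u} δ C hδ hδ1 hC
  refine ⟨κ, K0, hκ, ?_⟩
  intro V _ G H W a ha hWa hW hG hH
  have hcard : Fintype.card {x // x ∈ W} = W.card := Fintype.card_coe _
  obtain ⟨l, hl, hcyc⟩ := h {x // x ∈ W} (G.comap Subtype.val) (H.comap Subtype.val) a ha
    (by rw [hcard]; exact hWa) (by rw [hcard]; exact Finset.card_pos.mpr hW) (by
      rw [hcard]
      refine hG.trans ?_
      have h1 : (edgesIn G W).card ≤ (G.comap (Subtype.val : {x // x ∈ W} → V)).edgeFinset.card := by
        refine le_trans (Finset.card_le_card ?_)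
          (Finset.card_image_le (f := Sym2.map (Subtype.val : {x // x ∈ W} → V)))
        intro e he
        simp only [edgesIn, Finset.mem_filter, SimpleGraph.mem_edgeFinset] at he
        induction e with
        | h x y =>
        rw [Finset.mem_image]
        refine ⟨s(⟨x, he.2 x (by simp)⟩, ⟨y, he.2 y (by simp)⟩), ?_, by simp⟩
        rw [SimpleGraph.mem_edgeFinset, SimpleGraph.mem_edgeSet, SimpleGraph.comap_adj]
        exact he.1
      have h2 : ((edgesIn G W).card : ℝ) ≤
          (G.comap (Subtype.val : {x // x ∈ W} → V)).edgeFinset.card := by exact_mod_cast h1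
      have h3 : 2 * ((edgesIn G W).card : ℝ) ≤
          2 * (G.comap (Subtype.val : {x // x ∈ W} → V)).edgeFinset.card := by linarith
      refine h3.trans (le_of_eq ?_)
      refine congrArg (fun z : Finset (Sym2 {x // x ∈ W}) => 2 * (z.card : ℝ)) ?_
      ext q
      simp only [SimpleGraph.mem_edgeFinset]) (by
      intro X Y hXY hd
      rw [hcard] at hd
      obtain ⟨x, hx, y, hy, hxy⟩ := hH (X.map (Function.Embedding.subtype _))
        (Y.map (Function.Embedding.subtype _)) (by
          intro z hz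
          rw [Finset.mem_map] at hz
          obtain ⟨z', _, rfl⟩ := hz
          exact z'.2) (by
          intro z hz
          rw [Finset.mem_map] at hz
          obtain ⟨z', _, rfl⟩ := hz
          exact z'.2) (by rw [Finset.disjoint_map]; exact hXY) (by
          refine hd.trans ?_
          have : ((G.comap (Subtype.val : {x // x ∈ W} → V)).interedges X Y).card ≤
              (G.interedges (X.map (Function.Embedding.subtype _))
                (Y.map (Function.Embedding.subtype _))).card := by
            refine Finset.card_le_card_of_injOn (fun z => (z.1.1, z.2.1)) ?_ ?_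
            · intro z hz
              rw [Finset.mem_coe, SimpleGraph.mem_interedges_iff] at hz
              rw [Finset.mem_coe, SimpleGraph.mem_interedges_iff]
              exact ⟨Finset.mem_map_of_mem _ hz.1, Finset.mem_map_of_mem _ hz.2.1, hz.2.2⟩
            · rintro ⟨a, b⟩ _ ⟨a', b'⟩ _ h
              simp only [Prod.mk.injEq] at h
              rw [Prod.mk.injEq]
              exact ⟨Subtype.ext h.1, Subtype.ext h.2⟩
          exact_mod_cast this)
      rw [Finset.mem_map] at hx hy
      obtain ⟨x', hx', rfl⟩ := hx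
      obtain ⟨y', hy', rfl⟩ := hy
      exact ⟨x', hx', y', hy', hxy⟩)
  refine ⟨l, hl, hcyc.map_inj (SimpleGraph.Embedding.comap
    (Function.Embedding.subtype _) H).toHom ?_⟩
  exact Subtype.val_injective

variable {V : Type*} [Fintype V]

open Classical in
/-- All dense pairs of subsets of `W` are joined by an edge of `H`. -/
def Jn (G : SimpleGraph V) (W : Finset V) (κ : ℝ) (H : SimpleGraph V) : Prop :=
  ∀ X Y : Finset V, X ⊆ W → Y ⊆ W → Disjoint X Y →
    κ * (W.card : ℝ) ^ 2 ≤ (G.interedges X Y).card → ∃ x ∈ X, ∃ y ∈ Y, H.Adj x y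

open Classical in
theorem prob_not_joined (G : SimpleGraph V) (W : Finset V) (κ : ℝ) {p : ℝ} (hp0 : 0 ≤ p)
    (hp1 : p ≤ 1) :
    wt G.edgeFinset p (fun S => ¬ Jn G W κ (SimpleGraph.fromEdgeSet (S : Set (Sym2 V)))) ≤
      4 ^ W.card * Real.exp (-(p * (κ * (W.card : ℝ) ^ 2))) := by
  set I : Finset (Finset V × Finset V) := (W.powerset ×ˢ W.powerset).filter fun z =>
    Disjoint z.1 z.2 ∧ κ * (W.card : ℝ) ^ 2 ≤ (G.interedges z.1 z.2).card with hI
  have h1 := wt_union (E := G.edgeFinset) hp0 hp1
    (P := fun S => ¬ Jn G W κ (SimpleGraph.fromEdgeSet (S : Set (Sym2 V)))) I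
    (fun z S => (∅ : Finset (Sym2 V)) ⊆ S ∧
      Disjoint S ((G.interedges z.1 z.2).image fun e => s(e.1, e.2))) (by
      intro S hS hno
      unfold Jn at hno
      push Not at hno
      obtain ⟨X, Y, hX, hY, hXY, hd, hno⟩ := hno
      refine ⟨(X, Y), ?_, Finset.empty_subset _, ?_⟩
      · rw [hI, Finset.mem_filter, Finset.mem_product, Finset.mem_powerset, Finset.mem_powerset]
        exact ⟨⟨hX, hY⟩, hXY, hd⟩
      · rw [Finset.disjoint_left]
        intro e he he'
        rw [Finset.mem_image] at he'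
        obtain ⟨⟨x, y⟩, hz, rfl⟩ := he'
        rw [SimpleGraph.mem_interedges_iff] at hz
        apply hno x hz.1 y hz.2.1
        rw [SimpleGraph.fromEdgeSet_adj]
        exact ⟨he, hz.2.2.ne⟩)
  refine h1.trans ?_
  have h2 : ∀ z ∈ I, wt G.edgeFinset p (fun S => (∅ : Finset (Sym2 V)) ⊆ S ∧
      Disjoint S ((G.interedges z.1 z.2).image fun e => s(e.1, e.2))) ≤
      Real.exp (-(p * (κ * (W.card : ℝ) ^ 2))) := by
    intro z hz
    rw [hI, Finset.mem_filter] at hz
    rw [wt_cyl (Finset.empty_subset _)]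
    · rw [Finset.card_empty, pow_zero, one_mul]
      refine (one_sub_pow_le_exp hp1 _).trans ?_
      rw [Real.exp_le_exp]
      rw [Finset.card_image_of_injOn]
      · have := hz.2.2
        nlinarith
      · rintro ⟨x, y⟩ hxy ⟨x', y'⟩ hxy' h
        rw [Finset.mem_coe, SimpleGraph.mem_interedges_iff] at hxy hxy'
        simp only at h hxy hxy'
        rw [Sym2.eq_iff] at h
        rcases h with ⟨rfl, rfl⟩ | ⟨rfl, rfl⟩
        · rfl
        · exact absurd hxy'.2.1 (Finset.disjoint_left.mp hz.2.1 hxy.1)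
    · intro e he
      rw [Finset.mem_image] at he
      obtain ⟨⟨x, y⟩, hxy, rfl⟩ := he
      rw [SimpleGraph.mem_interedges_iff] at hxy
      rw [SimpleGraph.mem_edgeFinset, SimpleGraph.mem_edgeSet]
      exact hxy.2.2
    · exact Finset.disjoint_empty_left _
  refine (Finset.sum_le_sum h2).trans ?_
  rw [Finset.sum_const, nsmul_eq_mul]
  apply mul_le_mul_of_nonneg_right _ (Real.exp_pos _).le
  have h3 : I.card ≤ 4 ^ W.card := by
    refine (Finset.card_filter_le _ _).trans ?_
    rw [Finset.card_product, Finset.card_powerset, ← mul_pow]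
    norm_num
  exact_mod_cast h3

end Pool.Agent.H954.AD
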