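import Pool.Agent.H954.AD.Forest

/-!
If all small sets of vertices span few edges of `G`, then few edges of `G` join a vertex to one of
its ancestors at bounded distance in a given spanning forest.
-/

open Finset

namespace Pool.Agent.H954.AD

variable {V : Type*} [Fintype V] {f : V → Option V} {d : V → ℕ}

open Classical in
/-- The neighbours of `x` which are ancestors of `x` at distance less than `l`. -/
noncomputable def upm (G : SimpleGraph V) (f : V → Option V) (l : ℕ) (x : V) : Finset V :=
  univ.filter fun a => G.Adj x a ∧ ∃ i, i < l ∧ up f i x = some a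

open Classical in
/-- The edges of `G` inside `W`. -/
noncomputable def edgesIn (G : SimpleGraph V) (W : Finset V) : Finset (Sym2 V) :=
  G.edgeFinset.filter fun e => ∀ v ∈ e, v ∈ W

open Classical in
/-- The edges from the vertices in `D` up to their close ancestors are edges inside `W` if `W`
contains them all. -/
lemma sum_upm_le (hf : IsForest f d) (G : SimpleGraph V) (l : ℕ) (D W : Finset V)
    (hDW : D ⊆ W) (h : ∀ x ∈ D, ∀ a ∈ upm G f l x, a ∈ W) :
    ∑ x ∈ D, (upm G f l x).card ≤ (edgesIn G W).card := by
  rw [← Finset.card_sigma]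
  refine Finset.card_le_card_of_injOn (fun z : (_ : V) × V => s(z.1, z.2)) ?_ ?_
  · rintro ⟨x, a⟩ hz
    rw [Finset.mem_coe, Finset.mem_sigma] at hz
    have ha := h x hz.1 a hz.2
    have h2 := hz.2
    simp only [upm, Finset.mem_filter, Finset.mem_univ, true_and] at h2
    rw [Finset.mem_coe]
    simp only [edgesIn, Finset.mem_filter, SimpleGraph.mem_edgeFinset, SimpleGraph.mem_edgeSet]
    refine ⟨h2.1, ?_⟩
    intro v hv
    rw [Sym2.mem_iff] at hv
    rcases hv with rfl | rfl
    · exact hDW hz.1
    · exact ha
  · rintro ⟨x, a⟩ hz ⟨y, b⟩ hz' heq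
    rw [Finset.mem_coe, Finset.mem_sigma] at hz hz'
    have h1 := hz.2
    have h2 := hz'.2
    simp only [upm, Finset.mem_filter, Finset.mem_univ, true_and] at h1 h2
    obtain ⟨hadj, i, _, hi⟩ := h1
    obtain ⟨hadj', j, _, hj⟩ := h2
    have hdi := up_depth hf hi
    have hdj := up_depth hf hj
    simp only [Sym2.eq_iff] at heq
    rcases heq with ⟨rfl, rfl⟩ | ⟨rfl, rfl⟩
    · rfl
    · exfalso
      have hi0 : i = 0 := by omega
      subst hi0
      rw [up_zero] at hi
      cases hi
      exact G.loopless.irrefl _ hadj

/-- `D` is closed under descendants in `S`, and the ancestors of the elements of `D` are in `D` or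
above `o`. -/
structure Good (f : V → Option V) (S : Finset V) (o : Option V) (D : Finset V) : Prop where
  sub : D ⊆ S
  desc : ∀ x ∈ D, ∀ y ∈ S, Anc f x y → y ∈ D
  anc : ∀ x ∈ D, ∀ a, Anc f a x → a ∈ D ∨ ∃ v, o = some v ∧ Anc f a v
  top : ∀ v, o = some v → v ∉ D ∧ ∀ x ∈ D, Anc f v x

open Classical in
lemma exists_good (hf : IsForest f d) (S : Finset V) (hS : ∀ x ∈ S, ∀ a, Anc f a x → a ∈ S)
    (q : ℕ) (hq : 1 ≤ q) (hqS : q ≤ S.card) :
    ∃ o D, Good f S o D ∧ q ≤ D.card ∧ D.card ≤ 2 * q := by
  have hex : ∃ n, ∃ o D, Good f S o D ∧ q ≤ D.card ∧ D.card = n := by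
    refine ⟨S.card, none, S, ⟨subset_rfl, fun x _ y hy _ => hy, fun x hx a ha =>
      Or.inl (hS x hx a ha), fun v hv => by simp at hv⟩, hqS, rfl⟩
  obtain ⟨o, D, hD, hqD, hDn⟩ := Nat.find_spec hex
  have hmin : ∀ o' D', Good f S o' D' → q ≤ D'.card → D.card ≤ D'.card := by
    intro o' D' h1 h2
    rw [hDn]
    exact Nat.find_min' hex ⟨o', D', h1, h2, rfl⟩
  refine ⟨o, D, hD, hqD, ?_⟩
  by_contra hlt
  push Not at hlt
  have hne : D.Nonempty := by
    rw [← Finset.card_pos]; omega
  obtain ⟨c, hcD, hcmin⟩ := Finset.exists_min_image D d hne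
  set T := D.filter fun y => Anc f c y with hT
  have hcT : c ∈ T := by
    rw [hT, Finset.mem_filter]; exact ⟨hcD, Anc.refl c⟩
  have hTD : T ⊆ D := Finset.filter_subset _ _
  have hcc : ∀ a ∈ D, Anc f a c → a = c := fun a ha h => h.eq_of_depth hf (hcmin a ha)
  have hgT : Good f S o T := by
    refine ⟨hTD.trans hD.sub, ?_, ?_, ?_⟩
    · intro x hx y hy hxy
      rw [hT, Finset.mem_filter] at hx ⊢
      exact ⟨hD.desc x hx.1 y hy hxy, hx.2.trans hxy⟩
    · intro x hx a ha
      rw [hT, Finset.mem_filter] at hx
      rcases hD.anc x hx.1 a ha with h | h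
      · left
        rw [hT, Finset.mem_filter]
        refine ⟨h, ?_⟩
        rcases ha.total hx.2 with h' | h'
        · rw [hcc a h h']; exact Anc.refl c
        · exact h'
      · exact Or.inr h
    · intro v hv
      refine ⟨fun h => (hD.top v hv).1 (hTD h), fun x hx => (hD.top v hv).2 x (hTD hx)⟩
  by_cases hTeq : T = D
  · -- remove `c`
    have hg : Good f S (some c) (T.erase c) := by
      refine ⟨(Finset.erase_subset _ _).trans (hTD.trans hD.sub), ?_, ?_, ?_⟩
      · intro x hx y hy hxy
        rw [Finset.mem_erase] at hx ⊢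
        refine ⟨?_, hgT.desc x hx.2 y hy hxy⟩
        rintro rfl
        exact hx.1 (hcc x (hTD hx.2) hxy)
      · intro x hx a ha
        rw [Finset.mem_erase] at hx
        have hcx : Anc f c x := (Finset.mem_filter.mp hx.2).2
        rcases ha.total hcx with h' | h'
        · exact Or.inr ⟨c, rfl, h'⟩
        · by_cases hac : a = c
          · exact Or.inr ⟨c, rfl, by rw [hac]; exact Anc.refl c⟩
          · left
            rw [Finset.mem_erase]
            refine ⟨hac, ?_⟩
            rw [hT, Finset.mem_filter]
            refine ⟨?_, h'⟩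
            rcases hD.anc x (hTD hx.2) a ha with h | ⟨v, hv, hav⟩
            · exact h
            · exfalso
              have hvc := (hD.top v hv).2 c hcD
              have hac' : Anc f a c := hav.trans hvc
              exact hac (hac'.antisymm hf h')
      · intro v hv
        cases hv
        refine ⟨Finset.notMem_erase _ _, fun x hx => ?_⟩
        exact (Finset.mem_filter.mp (Finset.mem_of_mem_erase hx)).2
    have h1 : (T.erase c).card = D.card - 1 := by
      rw [Finset.card_erase_of_mem hcT, hTeq]
    have := hmin _ _ hg (by omega)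
    omega
  · have hTlt : T.card < D.card := Finset.card_lt_card (lt_of_le_of_ne hTD hTeq)
    have hTq : T.card < q := by
      by_contra h
      push Not at h
      have := hmin _ _ hgT h
      omega
    have hg : Good f S o (D \ T) := by
      refine ⟨Finset.sdiff_subset.trans hD.sub, ?_, ?_, ?_⟩
      · intro x hx y hy hxy
        rw [Finset.mem_sdiff] at hx ⊢
        refine ⟨hD.desc x hx.1 y hy hxy, ?_⟩
        intro hyT
        have hcy : Anc f c y := (Finset.mem_filter.mp hyT).2
        apply hx.2
        rw [hT, Finset.mem_filter]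
        refine ⟨hx.1, ?_⟩
        rcases hxy.total hcy with h' | h'
        · rw [hcc x hx.1 h']; exact Anc.refl c
        · exact h'
      · intro x hx a ha
        rw [Finset.mem_sdiff] at hx
        rcases hD.anc x hx.1 a ha with h | h
        · left
          rw [Finset.mem_sdiff]
          refine ⟨h, ?_⟩
          intro haT
          apply hx.2
          rw [hT, Finset.mem_filter]
          exact ⟨hx.1, (Finset.mem_filter.mp haT).2.trans ha⟩
        · exact Or.inr h
      · intro v hv
        refine ⟨fun h => (hD.top v hv).1 (Finset.sdiff_subset h),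
          fun x hx => (hD.top v hv).2 x (Finset.sdiff_subset hx)⟩
    have hcard : (D \ T).card + T.card = D.card := Finset.card_sdiff_add_card_eq_card hTD
    have hTpos : 0 < T.card := Finset.card_pos.mpr ⟨c, hcT⟩
    have := hmin _ _ hg (by omega)
    omega

open Classical in
/-- **Localisation.** -/
theorem sum_upm_le_of_sparse (hf : IsForest f d) (G : SimpleGraph V) (l q : ℕ) (hq : 1 ≤ q)
    (β : ℝ) (hβ : 0 ≤ β) (hsp : ∀ W : Finset V, W.card ≤ 2 * q + l →
      ((edgesIn G W).card : ℝ) ≤ β * W.card) (S : Finset V)
    (hS : ∀ x ∈ S, ∀ a, Anc f a x → a ∈ S) :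
    (∑ x ∈ S, ((upm G f l x).card : ℝ)) ≤ β * (1 + l / q) * S.card := by
  have hq0 : (0 : ℝ) < q := by exact_mod_cast hq
  induction hn : S.card using Nat.strong_induction_on generalizing S with
  | _ n ih =>
  have hup : ∀ x a, a ∈ upm G f l x → ∃ i, i < l ∧ up f i x = some a := by
    intro x a ha
    simp only [upm, Finset.mem_filter, Finset.mem_univ, true_and] at ha
    exact ha.2
  by_cases hsmall : S.card < q
  · have h1 := sum_upm_le hf G l S S subset_rfl (fun x hx a ha => by
      obtain ⟨i, _, hi⟩ := hup x a ha
      exact hS x hx a ⟨i, hi⟩)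
    have h2 := hsp S (by omega)
    have h3 : (∑ x ∈ S, ((upm G f l x).card : ℝ)) ≤ (edgesIn G S).card := by exact_mod_cast h1
    rw [← hn]
    refine h3.trans (h2.trans ?_)
    have : 0 ≤ β * (l / q) * S.card := by positivity
    nlinarith
  · push Not at hsmall
    obtain ⟨o, D, hD, hqD, hDq⟩ := exists_good hf S hS q hq hsmall
    set P : Finset V := univ.filter fun a => ∃ v, o = some v ∧ ∃ i, i < l ∧ up f i v = some a
      with hP
    have hPcard : P.card ≤ l := by
      cases ho : o with
      | none =>
        have : P = ∅ := by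
          rw [hP, Finset.filter_eq_empty_iff]
          rintro a _ ⟨v, hv, _⟩
          rw [ho] at hv
          simp at hv
        rw [this]; simp
      | some v =>
        have h1 : P.card ≤ (Finset.range l).card := by
          refine Finset.card_le_card_of_injOn (fun a => d v - d a) ?_ ?_
          · intro a ha
            rw [Finset.mem_coe, hP, Finset.mem_filter] at ha
            obtain ⟨_, v', hv', i, hi, hia⟩ := ha
            rw [ho] at hv'
            cases hv'
            have := up_depth hf hia
            rw [Finset.mem_coe, Finset.mem_range]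
            show d v - d a < l
            omega
          · intro a ha b hb hab
            rw [Finset.mem_coe, hP, Finset.mem_filter] at ha hb
            obtain ⟨_, v', hv', i, hi, hia⟩ := ha
            obtain ⟨_, v'', hv'', j, hj, hjb⟩ := hb
            rw [ho] at hv' hv''
            cases hv'
            cases hv''
            have h1 := up_depth hf hia
            have h2 := up_depth hf hjb
            have h3 : d v - d a = d v - d b := hab
            have h4 : i = j := by omega
            subst h4
            rw [hia] at hjb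
            exact Option.some.inj hjb
        rw [Finset.card_range] at h1
        exact h1
    have h1 := sum_upm_le hf G l D (D ∪ P) Finset.subset_union_left (by
      intro x hx a ha
      obtain ⟨i, hil, hi⟩ := hup x a ha
      rw [Finset.mem_union]
      rcases hD.anc x hx a ⟨i, hi⟩ with h | ⟨v, hv, j, hj⟩
      · exact Or.inl h
      · right
        rw [hP, Finset.mem_filter]
        refine ⟨Finset.mem_univ _, v, hv, j, ?_, hj⟩
        obtain ⟨m, hm⟩ := (hD.top v hv).2 x hx
        have e1 := up_depth hf hi
        have e2 := up_depth hf hj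
        have e3 := up_depth hf hm
        omega)
    have hcard : (D ∪ P).card ≤ D.card + l := (Finset.card_union_le _ _).trans (by omega)
    have h2 := hsp (D ∪ P) (by omega)
    have h3 : (∑ x ∈ D, ((upm G f l x).card : ℝ)) ≤ β * (1 + l / q) * D.card := by
      have h4 : (∑ x ∈ D, ((upm G f l x).card : ℝ)) ≤ (edgesIn G (D ∪ P)).card := by
        exact_mod_cast h1
      refine h4.trans (h2.trans ?_)
      have h5 : ((D ∪ P).card : ℝ) ≤ D.card + l := by exact_mod_cast hcard
      have h6 : (l : ℝ) ≤ l / q * D.card := by
        rw [div_mul_eq_mul_div, le_div_iff₀ hq0]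
        have : (q : ℝ) ≤ D.card := by exact_mod_cast hqD
        have hl : (0 : ℝ) ≤ l := Nat.cast_nonneg l
        nlinarith
      calc β * ((D ∪ P).card : ℝ) ≤ β * (D.card + l / q * D.card) :=
            mul_le_mul_of_nonneg_left (by linarith) hβ
        _ = β * (1 + l / q) * D.card := by ring
    have hSD : (S \ D).card < n := by
      have : (S \ D).card + D.card = S.card := Finset.card_sdiff_add_card_eq_card hD.sub
      omega
    have h4 := ih (S \ D).card hSD (S \ D) (by
      intro x hx a ha
      rw [Finset.mem_sdiff] at hx ⊢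
      refine ⟨hS x hx.1 a ha, fun haD => hx.2 (hD.desc a haD x hx.1 ha)⟩) rfl
    rw [← Finset.sum_sdiff hD.sub]
    have h5 : ((S \ D).card : ℝ) + D.card = n := by
      rw [← hn]
      exact_mod_cast Finset.card_sdiff_add_card_eq_card hD.sub
    rw [← h5]
    have := add_le_add h4 h3
    refine this.trans (le_of_eq ?_)
    ring

end Pool.Agent.H954.AD
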