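import Pool.Agent.H954.AD.Joined

/-!
The random subgraph of a graph of average degree at least `k`.
-/

open Finset

namespace Pool.Agent.H954.AD

universe u

open Classical in
/-- The graph with edge set `S` has a cycle of length at least `r`. -/
def Lc {V : Type u} (r : ℝ) (S : Finset (Sym2 V)) : Prop :=
  ∃ l : ℕ, r ≤ l ∧ HasCycle l (SimpleGraph.fromEdgeSet (S : Set (Sym2 V)))

open Classical in
/-- the case without small dense sets -/
lemma sparse_case {δ : ℝ} (hδ : 0 < δ) (hδ1 : δ ≤ 1 / 8) {V : Type u} [Fintype V]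
    (G : SimpleGraph V) {k p : ℝ} (hp0 : 0 ≤ p) (hp1 : p ≤ 1) (hk : 0 < k)
    (hpk : 4 * Real.log (2 / δ) / δ ≤ p * k) (hG : k * Fintype.card V ≤ 2 * G.edgeFinset.card)
    (hkV : k ≤ Fintype.card V) {l q : ℕ} (hl : 2 ≤ l) (hq : 1 ≤ q) (hlq : (l : ℝ) ≤ δ * q)
    (hsp : ∀ W : Finset V, W.card ≤ 2 * q + l →
      ((edgesIn G W).card : ℝ) ≤ (1 - 3 * δ) * k / 2 * W.card) {r : ℝ} (hr : r ≤ l + 1) :
    wt G.edgeFinset p (fun S => ¬ Lc r S) ≤ Real.exp (-(δ / 4 * p * k ^ 2)) := by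
  have hn0 : (0 : ℝ) ≤ Fintype.card V := Nat.cast_nonneg _
  have hq0 : (0 : ℝ) < q := by exact_mod_cast hq
  have h1 := union_bound G hp0 hp1 hl (B := 2 * δ * G.edgeFinset.card) (c := δ / 2) (by positivity)
    (by linarith) (by
      intro f d hf hfG
      have h2 := card_edges_le G f l
      have h3 := sum_upm_le_of_sparse hf G l q hq ((1 - 3 * δ) * k / 2)
        (by
          have : 0 ≤ 1 - 3 * δ := by linarith
          positivity) hsp univ (fun _ _ _ _ => Finset.mem_univ _)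
      have h4 : (G.edgeFinset.card : ℝ) ≤ (farEdges G f l).card + ∑ x, ((upm G f l x).card : ℝ) := by
        exact_mod_cast h2
      have h5 : (l : ℝ) / q ≤ δ := by
        rw [div_le_iff₀ hq0]; exact hlq
      rw [Finset.card_univ] at h3
      have h6 : (1 - 3 * δ) * k / 2 * (1 + l / q) * Fintype.card V ≤
          (1 - 2 * δ) * (k * Fintype.card V / 2) := by
        have h7 : (1 - 3 * δ) * (1 + (l : ℝ) / q) ≤ 1 - 2 * δ := by
          have : (1 - 3 * δ) * (1 + (l : ℝ) / q) ≤ (1 - 3 * δ) * (1 + δ) :=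
            mul_le_mul_of_nonneg_left (by linarith) (by linarith)
          nlinarith
        calc (1 - 3 * δ) * k / 2 * (1 + (l : ℝ) / q) * Fintype.card V =
            ((1 - 3 * δ) * (1 + (l : ℝ) / q)) * (k * Fintype.card V / 2) := by ring
          _ ≤ (1 - 2 * δ) * (k * Fintype.card V / 2) :=
            mul_le_mul_of_nonneg_right h7 (by positivity)
      have h8 : (1 - 2 * δ) * (k * Fintype.card V / 2) ≤ (1 - 2 * δ) * G.edgeFinset.card :=
        mul_le_mul_of_nonneg_left (by linarith) (by linarith)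
      linarith)
  refine le_trans (wt_mono hp0 hp1 ?_) (h1.trans ?_)
  · intro S _ hS hcyc
    apply hS
    exact ⟨l + 1, by push_cast; exact hr, hcyc⟩
  · rw [Real.exp_le_exp]
    have h2 : Real.log (1 / (δ / 2)) = Real.log (2 / δ) := by
      congr 1
      field_simp
    rw [h2]
    have h3 : Real.log (2 / δ) ≤ δ * (p * k) / 4 := by
      rw [div_le_iff₀ hδ] at hpk
      linarith
    have h4 : (Fintype.card V : ℝ) * Real.log (2 / δ) ≤ Fintype.card V * (δ * (p * k) / 4) :=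
      mul_le_mul_of_nonneg_left h3 hn0
    have h5 : δ * p * (k * Fintype.card V) ≤ δ * p * (2 * G.edgeFinset.card) :=
      mul_le_mul_of_nonneg_left hG (by positivity)
    have h6 : δ / 4 * p * k * k ≤ δ / 4 * p * k * Fintype.card V :=
      mul_le_mul_of_nonneg_left hkV (by positivity)
    nlinarith

open Classical in
/-- the case of a small dense set -/
lemma dense_case {δ C κ K0 : ℝ} (hδ : 0 < δ) (hδ1 : δ ≤ 1 / 8) (hκ : 0 < κ)
    (hD : ∀ (V : Type u) [Fintype V] (G H : SimpleGraph V) (W : Finset V) (a : ℝ),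
      K0 ≤ a → (W.card : ℝ) ≤ C * a → W.Nonempty → a * W.card ≤ 2 * (edgesIn G W).card →
      (∀ X Y : Finset V, X ⊆ W → Y ⊆ W → Disjoint X Y →
        κ * (W.card : ℝ) ^ 2 ≤ (G.interedges X Y).card → ∃ x ∈ X, ∃ y ∈ Y, H.Adj x y) →
      ∃ l : ℕ, (1 - δ) * a ≤ l ∧ HasCycle l H) {V : Type u} [Fintype V]
    (G : SimpleGraph V) {k p : ℝ} (hp0 : 0 ≤ p) (hp1 : p ≤ 1) (hk : 0 < k) (hkK : 2 * K0 ≤ k)
    (hpk : 6 / κ ≤ p * k) (W : Finset V) (hWk : (W.card : ℝ) ≤ C * ((1 - 3 * δ) * k))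
    (hW : (1 - 3 * δ) * k / 2 * W.card < (edgesIn G W).card) :
    wt G.edgeFinset p (fun S => ¬ Lc ((1 - 4 * δ) * k) S) ≤
      Real.exp (-(κ / 8 * p * k ^ 2)) := by
  have hWne : W.Nonempty := by
    rw [Finset.nonempty_iff_ne_empty]
    rintro rfl
    have : edgesIn G (∅ : Finset V) = ∅ := by
      rw [← Finset.card_eq_zero]
      have := card_edgesIn_le G (∅ : Finset V)
      simpa using this
    rw [this] at hW
    simp at hW
  have h1 : wt G.edgeFinset p (fun S => ¬ Lc ((1 - 4 * δ) * k) S) ≤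
      wt G.edgeFinset p (fun S => ¬ Jn G W κ (SimpleGraph.fromEdgeSet (S : Set (Sym2 V)))) := by
    apply wt_mono hp0 hp1
    intro S _ hS hJ
    apply hS
    obtain ⟨l, hl, hc⟩ := hD V G (SimpleGraph.fromEdgeSet (S : Set (Sym2 V))) W
      ((1 - 3 * δ) * k) (by nlinarith) hWk hWne (by linarith) (by
        intro X Y hX hY hXY hd
        exact hJ X Y hX hY hXY hd)
    refine ⟨l, le_trans ?_ hl, hc⟩
    nlinarith [mul_pos hδ hk, mul_pos hδ (mul_pos hδ hk)]
  refine h1.trans ((prob_not_joined G W κ hp0 hp1).trans ?_)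
  have hWc : k / 2 ≤ W.card := by
    have h2 := card_edgesIn_le G W
    have h3 : 0 < W.card := Finset.card_pos.mpr hWne
    rw [Nat.choose_two_right] at h2
    have h4 := Nat.div_mul_le_self (W.card * (W.card - 1)) 2
    have h5 : W.card * (W.card - 1) ≤ W.card * W.card := Nat.mul_le_mul_left _ (by omega)
    have h6 : 2 * (edgesIn G W).card ≤ W.card * W.card := by omega
    have h7 : (2 : ℝ) * (edgesIn G W).card ≤ W.card * W.card := by exact_mod_cast h6
    have h8 : (0 : ℝ) < W.card := by exact_mod_cast h3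
    have h9 : (1 - 3 * δ) * k * W.card ≤ W.card * W.card := by linarith
    have h10 := le_of_mul_le_mul_right h9 h8
    nlinarith
  have h4 : (4 : ℝ) ^ W.card = Real.exp (W.card * Real.log 4) := by
    rw [mul_comm, Real.exp_mul, Real.exp_log (by norm_num), Real.rpow_natCast]
  rw [h4, ← Real.exp_add, Real.exp_le_exp]
  have hlog : Real.log 4 ≤ 3 / 2 := by
    have h5 : Real.log 4 = 2 * Real.log 2 := by
      rw [show (4 : ℝ) = 2 ^ 2 by norm_num, Real.log_pow]
      norm_num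
    have := Real.log_two_lt_d9
    rw [h5]
    linarith
  set m : ℝ := (W.card : ℝ) with hm
  have hm0 : 0 < m := by linarith
  rw [div_le_iff₀ hκ] at hpk
  have h5 : m * Real.log 4 ≤ m * (3 / 2) := mul_le_mul_of_nonneg_left hlog hm0.le
  -- `3/2 ≤ κ p m / 2`
  have h6 : 3 / 2 ≤ κ * p * m / 2 := by
    have : κ * p * (k / 2) ≤ κ * p * m := mul_le_mul_of_nonneg_left hWc (by positivity)
    nlinarith
  have h7 : m * (3 / 2) ≤ m * (κ * p * m / 2) := mul_le_mul_of_nonneg_left h6 hm0.le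
  have h8 : k ^ 2 / 4 ≤ m ^ 2 := by nlinarith
  have h9 : κ * p / 2 * (k ^ 2 / 4) ≤ κ * p / 2 * m ^ 2 :=
    mul_le_mul_of_nonneg_left h8 (by positivity)
  nlinarith

open Classical in
/-- **Long cycles in random subgraphs of graphs of average degree at least `k`.** -/
theorem main (ε : ℝ) (hε : 0 < ε) (hε1 : ε < 1) :
    ∃ C0 c : ℝ, 0 < C0 ∧ 0 < c ∧ ∀ (V : Type u) [Fintype V] (G : SimpleGraph V) (k p : ℝ),
      0 ≤ p → p ≤ 1 → C0 ≤ p * k → 0 < Fintype.card V →
      k * Fintype.card V ≤ 2 * G.edgeFinset.card →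
      wt G.edgeFinset p (fun S => ¬ Lc ((1 - ε) * k) S) ≤ Real.exp (-(c * p * k ^ 2)) := by
  set δ : ℝ := ε / 8 with hδ
  have hδ0 : 0 < δ := by positivity
  have hδ1 : δ ≤ 1 / 8 := by rw [hδ]; linarith
  obtain ⟨κ, K0, hκ, hD⟩ := dense1.{u} δ (2 * (2 / δ + 5)) hδ0 (by linarith) (by
    have : 0 < 2 / δ := by positivity
    linarith)
  set C0 : ℝ := 4 * Real.log (2 / δ) / δ + 6 / κ + 2 * |K0| + 3 / (1 - ε) + 1 with hC0
  have hlog : 0 ≤ Real.log (2 / δ) := by
    apply Real.log_nonneg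
    rw [le_div_iff₀ hδ0]
    linarith
  have a1 : 0 ≤ 4 * Real.log (2 / δ) / δ := by positivity
  have a2 : 0 < 6 / κ := by positivity
  have a3 : 0 ≤ 2 * |K0| := by positivity
  have a4 : 0 < 3 / (1 - ε) := div_pos (by norm_num) (by linarith)
  refine ⟨C0, min (δ / 4) (κ / 8), by positivity, lt_min (by positivity) (by positivity), ?_⟩
  intro V _ G k p hp0 hp1 hpk hV hG
  have hk0 : 0 < k := by
    by_contra h
    push Not at h
    have : p * k ≤ 0 := mul_nonpos_of_nonneg_of_nonpos hp0 h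
    linarith
  have hkC : C0 ≤ k := hpk.trans (by nlinarith)
  have hVr : (0 : ℝ) < Fintype.card V := by exact_mod_cast hV
  have hpk2 : 0 ≤ p * k ^ 2 := by positivity
  -- `k ≤ |V|`
  have hkV : k ≤ Fintype.card V := by
    have h1 := G.card_edgeFinset_le_card_choose_two
    have h2 : (2 : ℝ) * G.edgeFinset.card ≤ Fintype.card V * Fintype.card V := by
      have h3 : 2 * G.edgeFinset.card ≤ Fintype.card V * Fintype.card V := by
        rw [Nat.choose_two_right] at h1
        have h4 := Nat.div_mul_le_self (Fintype.card V * (Fintype.card V - 1)) 2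
        have h5 : Fintype.card V * (Fintype.card V - 1) ≤ Fintype.card V * Fintype.card V :=
          Nat.mul_le_mul_left _ (by omega)
        omega
      exact_mod_cast h3
    exact le_of_mul_le_mul_right (hG.trans h2) hVr
  set l : ℕ := ⌈(1 - ε) * k⌉₊ - 1 with hl
  have hk3 : 3 ≤ (1 - ε) * k := by
    have h1 : 3 / (1 - ε) ≤ k := by linarith
    rw [div_le_iff₀ (by linarith)] at h1
    linarith
  have hceil : 3 ≤ ⌈(1 - ε) * k⌉₊ := by
    have : (3 : ℝ) ≤ ⌈(1 - ε) * k⌉₊ := hk3.trans (Nat.le_ceil _)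
    exact_mod_cast this
  have hl2 : 2 ≤ l := by omega
  have hl1 : (1 - ε) * k ≤ l + 1 := by
    have h1 : l + 1 = ⌈(1 - ε) * k⌉₊ := by omega
    have h2 : ((l : ℝ) + 1) = ⌈(1 - ε) * k⌉₊ := by exact_mod_cast h1
    rw [h2]
    exact Nat.le_ceil _
  have hlk : (l : ℝ) ≤ k := by
    have h1 : l + 1 = ⌈(1 - ε) * k⌉₊ := by omega
    have h2 : ((l : ℝ) + 1) = ⌈(1 - ε) * k⌉₊ := by exact_mod_cast h1
    have h3 := Nat.ceil_lt_add_one (show 0 ≤ (1 - ε) * k by linarith)
    nlinarith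
  set q : ℕ := ⌈k / δ⌉₊ with hq
  have hq1 : k / δ ≤ q := Nat.le_ceil _
  have hq2 : (q : ℝ) ≤ k / δ + 1 := (Nat.ceil_lt_add_one (by positivity)).le
  have hkq : k ≤ δ * q := by
    rw [div_le_iff₀ hδ0] at hq1
    linarith
  have hqpos : 1 ≤ q := by
    have : (0 : ℝ) < q := lt_of_lt_of_le (by positivity) hq1
    have : 0 < q := by exact_mod_cast this
    omega
  by_cases hsp : ∀ W : Finset V, W.card ≤ 2 * q + l →
      ((edgesIn G W).card : ℝ) ≤ (1 - 3 * δ) * k / 2 * W.card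
  · have h1 := sparse_case hδ0 hδ1 G hp0 hp1 hk0 (by linarith) hG hkV hl2 hqpos
      (hlk.trans hkq) hsp hl1
    refine h1.trans ?_
    rw [Real.exp_le_exp]
    have : min (δ / 4) (κ / 8) * (p * k ^ 2) ≤ δ / 4 * (p * k ^ 2) :=
      mul_le_mul_of_nonneg_right (min_le_left _ _) hpk2
    linarith
  · push Not at hsp
    obtain ⟨W, hWc, hW⟩ := hsp
    have hWk : (W.card : ℝ) ≤ 2 * (2 / δ + 5) * ((1 - 3 * δ) * k) := by
      have h1 : (W.card : ℝ) ≤ 2 * q + l := by exact_mod_cast hWc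
      have h2 : (2 : ℝ) * q + l ≤ (2 / δ + 5) * k := by
        have h3 : (2 / δ + 5) * k = 2 * (k / δ) + 5 * k := by ring
        rw [h3]
        have : 1 ≤ k := by linarith
        linarith
      have h3 : (2 / δ + 5) * k ≤ 2 * (2 / δ + 5) * ((1 - 3 * δ) * k) := by
        have h4 : 1 ≤ 2 * (1 - 3 * δ) := by linarith
        have h5 : 0 ≤ (2 / δ + 5) * k := by positivity
        nlinarith
      linarith
    have h1 := dense_case hδ0 hδ1 hκ (K0 := |K0|) (fun V _ G H W a ha => hD V G H W a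
      ((le_abs_self _).trans ha)) G hp0 hp1 hk0 (by linarith) (by linarith) W hWk hW
    refine le_trans (wt_mono hp0 hp1 ?_) (h1.trans ?_)
    · rintro S _ hS ⟨l', hl', hc⟩
      refine hS ⟨l', le_trans ?_ hl', hc⟩
      have : 4 * δ = ε / 2 := by rw [hδ]; ring
      rw [this]
      nlinarith
    · rw [Real.exp_le_exp]
      have : min (δ / 4) (κ / 8) * (p * k ^ 2) ≤ κ / 8 * (p * k ^ 2) :=
        mul_le_mul_of_nonneg_right (min_le_right _ _) hpk2
      linarith

end Pool.Agent.H954.AD
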