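import Pool.Agent.H954.AD.Local
import Pool.Agent.H954.AD.Conn

/-!
A graph with `t` vertices and at least `s t` edges has a connected matching with `s` edges.
-/

open Finset

namespace Pool.Agent.H954.AD

variable {ι : Type*}

lemma Dj.symm {p p' : ι × ι} (h : Dj p p') : Dj p' p :=
  ⟨h.1.symm, h.2.2.1.symm, h.2.1.symm, h.2.2.2.symm⟩

open Classical in
/-- The number of the neighbours of `u` among the two entries of `p`. -/
noncomputable def cnt (R : SimpleGraph ι) (u : ι) (p : ι × ι) : ℕ :=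
  (if R.Adj u p.1 then 1 else 0) + (if R.Adj u p.2 then 1 else 0)

open Classical in
lemma card_le_cnt (R : SimpleGraph ι) (u : ι) : ∀ (ps : List (ι × ι)) (D : Finset ι),
    (∀ x ∈ D, R.Adj u x) → (∀ x ∈ D, ∃ p ∈ ps, x = p.1 ∨ x = p.2) →
    D.card ≤ (ps.map (cnt R u)).sum
  | [], D, _, h => by
    have : D = ∅ := by
      rw [Finset.eq_empty_iff_forall_notMem]
      intro x hx
      obtain ⟨p, hp, _⟩ := h x hx
      simp at hp
    rw [this]; simp
  | p :: ps, D, h1, h2 => by
    have ih := card_le_cnt R u ps ((D.erase p.1).erase p.2)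
      (fun x hx => h1 x (Finset.mem_of_mem_erase (Finset.mem_of_mem_erase hx)))
      (fun x hx => by
        rw [Finset.mem_erase, Finset.mem_erase] at hx
        obtain ⟨p', hp', h⟩ := h2 x hx.2.2
        rcases List.mem_cons.mp hp' with rfl | hp'
        · rcases h with h | h
          · exact absurd h hx.2.1
          · exact absurd h hx.1
        · exact ⟨p', hp', h⟩)
    rw [List.map_cons, List.sum_cons]
    have e1 : D.card ≤ (D.erase p.1).card + (if R.Adj u p.1 then 1 else 0) := by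
      by_cases h : p.1 ∈ D
      · rw [if_pos (h1 _ h), Finset.card_erase_add_one h]
      · rw [Finset.erase_eq_of_notMem h]; omega
    have e2 : (D.erase p.1).card ≤ ((D.erase p.1).erase p.2).card +
        (if R.Adj u p.2 then 1 else 0) := by
      by_cases h : p.2 ∈ D.erase p.1
      · rw [if_pos (h1 _ (Finset.mem_of_mem_erase h)), Finset.card_erase_add_one h]
      · rw [Finset.erase_eq_of_notMem h]; omega
    unfold cnt at ih ⊢
    omega

/-- A matching inside `X`. -/
structure Mt (R : SimpleGraph ι) (X : Finset ι) (ps : List (ι × ι)) : Prop where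
  dj : ps.Pairwise Dj
  adj : ∀ p ∈ ps, p.1 ∈ X ∧ p.2 ∈ X ∧ R.Adj p.1 p.2

open Classical in
lemma Mt.augment {R : SimpleGraph ι} {X : Finset ι} {ps : List (ι × ι)} {s : ℕ} (h : Mt R X ps)
    (hX : 2 * s + 1 ≤ X.card) (hdeg : ∀ v ∈ X, s + 1 ≤ (X.filter (fun u => R.Adj v u)).card)
    (hlen : ps.length < s) : ∃ ps', Mt R X ps' ∧ ps'.length = ps.length + 1 := by
  set C : Finset ι := (ps.map Prod.fst ++ ps.map Prod.snd).toFinset with hC
  have hCc : C.card ≤ 2 * ps.length := by
    have := List.toFinset_card_le (ps.map Prod.fst ++ ps.map Prod.snd)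
    rw [← hC] at this
    simp at this
    omega
  have hnC : ∀ x, x ∉ C → ∀ p ∈ ps, x ≠ p.1 ∧ x ≠ p.2 := by
    intro x hx p hp
    constructor
    · rintro rfl
      apply hx
      rw [hC, List.mem_toFinset, List.mem_append]
      exact Or.inl (List.mem_map_of_mem hp)
    · rintro rfl
      apply hx
      rw [hC, List.mem_toFinset, List.mem_append]
      exact Or.inr (List.mem_map_of_mem hp)
  have hmC : ∀ x, x ∈ C → ∃ p ∈ ps, x = p.1 ∨ x = p.2 := by
    intro x hx
    rw [hC, List.mem_toFinset, List.mem_append, List.mem_map, List.mem_map] at hx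
    rcases hx with ⟨p, hp, rfl⟩ | ⟨p, hp, rfl⟩
    · exact ⟨p, hp, Or.inl rfl⟩
    · exact ⟨p, hp, Or.inr rfl⟩
  have hW : 1 < (X \ C).card := by
    have := Finset.le_card_sdiff C X
    omega
  obtain ⟨u, hu, v, hv, huv⟩ := Finset.one_lt_card.mp hW
  rw [Finset.mem_sdiff] at hu hv
  -- adding an edge between two uncovered vertices
  have hadd : ∀ x y, x ∈ X → x ∉ C → y ∈ X → y ∉ C → R.Adj x y →
      ∃ ps', Mt R X ps' ∧ ps'.length = ps.length + 1 := by
    intro x y hx hxC hy hyC hxy
    refine ⟨(x, y) :: ps, ⟨?_, ?_⟩, by simp⟩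
    · rw [List.pairwise_cons]
      refine ⟨fun p hp => ?_, h.dj⟩
      exact ⟨(hnC x hxC p hp).1, (hnC x hxC p hp).2, (hnC y hyC p hp).1, (hnC y hyC p hp).2⟩
    · intro p hp
      rcases List.mem_cons.mp hp with rfl | hp
      · exact ⟨hx, hy, hxy⟩
      · exact h.adj p hp
  by_cases h1 : ∃ y ∈ X, y ∉ C ∧ R.Adj u y
  · obtain ⟨y, hy, hyC, huy⟩ := h1
    exact hadd u y hu.1 hu.2 hy hyC huy
  by_cases h2 : ∃ y ∈ X, y ∉ C ∧ R.Adj v y
  · obtain ⟨y, hy, hyC, huy⟩ := h2
    exact hadd v y hv.1 hv.2 hy hyC huy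
  push Not at h1 h2
  have c1 : s + 1 ≤ (ps.map (cnt R u)).sum := by
    refine (hdeg u hu.1).trans (card_le_cnt R u ps _ ?_ ?_)
    · intro x hx
      exact (Finset.mem_filter.mp hx).2
    · intro x hx
      rw [Finset.mem_filter] at hx
      apply hmC
      by_contra hxC
      exact h1 x hx.1 hxC hx.2
  have c2 : s + 1 ≤ (ps.map (cnt R v)).sum := by
    refine (hdeg v hv.1).trans (card_le_cnt R v ps _ ?_ ?_)
    · intro x hx
      exact (Finset.mem_filter.mp hx).2
    · intro x hx
      rw [Finset.mem_filter] at hx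
      apply hmC
      by_contra hxC
      exact h2 x hx.1 hxC hx.2
  obtain ⟨p, hp, hp3⟩ : ∃ p ∈ ps, 3 ≤ cnt R u p + cnt R v p := by
    by_contra hcon
    push Not at hcon
    have e1 : (ps.map (cnt R u)).sum + (ps.map (cnt R v)).sum =
        (ps.map fun p => cnt R u p + cnt R v p).sum := by
      rw [List.sum_map_add]
    have e2 : (ps.map fun p => cnt R u p + cnt R v p).sum ≤ ps.length * 2 := by
      have := List.sum_le_card_nsmul (ps.map fun p => cnt R u p + cnt R v p) 2 (by
        intro x hx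
        rw [List.mem_map] at hx
        obtain ⟨p, hp, rfl⟩ := hx
        have := hcon p hp
        omega)
      simpa using this
    omega
  have hperm : ps.Perm (p :: ps.erase p) := List.perm_cons_erase hp
  have hpw : (p :: ps.erase p).Pairwise Dj :=
    (hperm.pairwise_iff (fun h => Dj.symm h)).mp h.dj
  have hlen' : ps.length = (ps.erase p).length + 1 := by
    rw [hperm.length_eq]; simp
  have hsub : ∀ p' ∈ ps.erase p, p' ∈ ps := fun p' h' => List.mem_of_mem_erase h'
  have hpd : ∀ p' ∈ ps.erase p, Dj p p' := (List.pairwise_cons.mp hpw).1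
  have hpa := h.adj p hp
  have hup := hnC u hu.2 p hp
  have hvp := hnC v hv.2 p hp
  -- exchanging
  have hex : ∀ a b, a ∈ X → b ∈ X → (a = p.1 ∧ b = p.2 ∨ a = p.2 ∧ b = p.1) → R.Adj u a →
      R.Adj v b → ∃ ps', Mt R X ps' ∧ ps'.length = ps.length + 1 := by
    intro a b ha hb hab hua hvb
    have hne : a ≠ b ∧ u ≠ a ∧ u ≠ b ∧ v ≠ a ∧ v ≠ b ∧
        ∀ p' ∈ ps.erase p, a ≠ p'.1 ∧ a ≠ p'.2 ∧ b ≠ p'.1 ∧ b ≠ p'.2 := by
      rcases hab with ⟨rfl, rfl⟩ | ⟨rfl, rfl⟩
      · exact ⟨hpa.2.2.ne, hup.1, hup.2, hvp.1, hvp.2, fun p' hp' => hpd p' hp'⟩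
      · refine ⟨hpa.2.2.ne.symm, hup.2, hup.1, hvp.2, hvp.1, fun p' hp' => ?_⟩
        have := hpd p' hp'
        exact ⟨this.2.2.1, this.2.2.2, this.1, this.2.1⟩
    obtain ⟨n1, n2, n3, n4, n5, n6⟩ := hne
    refine ⟨(u, a) :: (v, b) :: ps.erase p, ⟨?_, ?_⟩, ?_⟩
    · rw [List.pairwise_cons, List.pairwise_cons]
      refine ⟨?_, ?_, (List.pairwise_cons.mp hpw).2⟩
      · intro p' hp'
        rcases List.mem_cons.mp hp' with rfl | hp'
        · exact ⟨huv, n3, n4.symm, n1⟩
        · exact ⟨(hnC u hu.2 p' (hsub p' hp')).1, (hnC u hu.2 p' (hsub p' hp')).2,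
            (n6 p' hp').1, (n6 p' hp').2.1⟩
      · intro p' hp'
        exact ⟨(hnC v hv.2 p' (hsub p' hp')).1, (hnC v hv.2 p' (hsub p' hp')).2,
            (n6 p' hp').2.2.1, (n6 p' hp').2.2.2⟩
    · intro p' hp'
      rcases List.mem_cons.mp hp' with rfl | hp'
      · exact ⟨hu.1, ha, hua⟩
      · rcases List.mem_cons.mp hp' with rfl | hp'
        · exact ⟨hv.1, hb, hvb⟩
        · exact h.adj p' (hsub p' hp')
    · simp only [List.length_cons]
      omega
  unfold cnt at hp3
  by_cases a1 : R.Adj u p.1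
  · by_cases b2 : R.Adj v p.2
    · exact hex p.1 p.2 hpa.1 hpa.2.1 (Or.inl ⟨rfl, rfl⟩) a1 b2
    · by_cases a2 : R.Adj u p.2
      · by_cases b1 : R.Adj v p.1
        · exact hex p.2 p.1 hpa.2.1 hpa.1 (Or.inr ⟨rfl, rfl⟩) a2 b1
        · simp [a1, a2, b1, b2] at hp3
      · simp only [a1, a2, b2, if_true, if_false] at hp3
        split_ifs at hp3 <;> omega
  · by_cases a2 : R.Adj u p.2
    · by_cases b1 : R.Adj v p.1
      · exact hex p.2 p.1 hpa.2.1 hpa.1 (Or.inr ⟨rfl, rfl⟩) a2 b1
      · simp only [a1, a2, b1, if_true, if_false] at hp3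
        split_ifs at hp3 <;> omega
    · simp only [a1, a2, if_false] at hp3
      split_ifs at hp3 <;> omega

lemma Mt.exists {R : SimpleGraph ι} {X : Finset ι} {s : ℕ}
    (hX : 2 * s + 1 ≤ X.card) (hdeg : open Classical in
      ∀ v ∈ X, s + 1 ≤ (X.filter (fun u => R.Adj v u)).card) :
    ∀ r ≤ s, ∃ ps, Mt R X ps ∧ ps.length = r := by
  intro r
  induction r with
  | zero => intro _; exact ⟨[], ⟨by simp, by simp⟩, rfl⟩
  | succ r ih =>
    intro hr
    obtain ⟨ps, h1, h2⟩ := ih (by omega)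
    obtain ⟨ps', h3, h4⟩ := h1.augment hX hdeg (by omega)
    exact ⟨ps', h3, by omega⟩

variable [Fintype ι]

open Classical in
lemma card_edgesIn_le (R : SimpleGraph ι) (X : Finset ι) :
    (edgesIn R X).card ≤ X.card.choose 2 := by
  rw [← Sym2.card_image_offDiag]
  apply Finset.card_le_card
  intro e he
  simp only [edgesIn, Finset.mem_filter, SimpleGraph.mem_edgeFinset] at he
  induction e with
  | h x y =>
  rw [Finset.mem_image]
  refine ⟨(x, y), ?_, rfl⟩
  rw [Finset.mem_offDiag]
  exact ⟨he.2 x (by simp), he.2 y (by simp), (SimpleGraph.mem_edgeSet R |>.mp he.1).ne⟩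

open Classical in
lemma card_edgesIn_erase (R : SimpleGraph ι) (X : Finset ι) (v : ι) :
    (edgesIn R X).card ≤ (edgesIn R (X.erase v)).card +
      (X.filter (fun u => R.Adj v u)).card := by
  have h : edgesIn R X ⊆ edgesIn R (X.erase v) ∪
      (X.filter (fun u => R.Adj v u)).image (fun u => s(v, u)) := by
    intro e he
    simp only [edgesIn, Finset.mem_filter, SimpleGraph.mem_edgeFinset] at he
    rw [Finset.mem_union]
    by_cases hv : v ∈ e
    · right
      obtain ⟨u, rfl⟩ := Sym2.mem_iff_exists.mp hv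
      rw [Finset.mem_image]
      exact ⟨u, Finset.mem_filter.mpr ⟨he.2 u (by simp), he.1⟩, rfl⟩
    · left
      simp only [edgesIn, Finset.mem_filter, SimpleGraph.mem_edgeFinset]
      refine ⟨he.1, fun w hw => ?_⟩
      rw [Finset.mem_erase]
      refine ⟨?_, he.2 w hw⟩
      rintro rfl
      exact hv hw
  exact (Finset.card_le_card h).trans ((Finset.card_union_le _ _).trans
    (Nat.add_le_add_left Finset.card_image_le _))

open Classical in
/-- **Connected matchings.** -/
theorem exists_matching (R : SimpleGraph ι) {s : ℕ} (hs : 0 < s) (hι : 0 < Fintype.card ι)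
    (hR : s * Fintype.card ι ≤ R.edgeFinset.card) :
    ∃ (r : ι) (ps : List (ι × ι)), ps.length = s ∧
      (∀ p ∈ ps, R.Adj p.1 p.2 ∧ R.Reachable r p.1) ∧ ps.Pairwise Dj := by
  have hex : ∃ n, ∃ X : Finset ι, X.Nonempty ∧ s * X.card ≤ (edgesIn R X).card ∧ X.card = n := by
    refine ⟨Fintype.card ι, univ, ?_, ?_, Finset.card_univ⟩
    · rw [← Finset.card_pos, Finset.card_univ]; exact hι
    · rw [Finset.card_univ]
      refine hR.trans (le_of_eq ?_)
      congr 1
      ext e
      simp [edgesIn]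
  obtain ⟨X, hXne, hX, hXn⟩ := Nat.find_spec hex
  have hmin : ∀ Y : Finset ι, Y.Nonempty → Y.card < X.card → (edgesIn R Y).card < s * Y.card := by
    intro Y hY hlt
    by_contra h
    push Not at h
    have := Nat.find_min' hex ⟨Y, hY, h, rfl⟩
    omega
  have hXc : 2 * s + 1 ≤ X.card := by
    have h1 := hX.trans (card_edgesIn_le R X)
    rw [Nat.choose_two_right] at h1
    have h2 : 0 < X.card := Finset.card_pos.mpr hXne
    have h3 : X.card * (X.card - 1) / 2 * 2 ≤ X.card * (X.card - 1) := Nat.div_mul_le_self _ _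
    have h4 : 2 * s * X.card ≤ (X.card - 1) * X.card := by
      calc 2 * s * X.card = s * X.card * 2 := by ring
        _ ≤ X.card * (X.card - 1) / 2 * 2 := Nat.mul_le_mul_right _ h1
        _ ≤ X.card * (X.card - 1) := h3
        _ = _ := by ring
    have h5 := Nat.le_of_mul_le_mul_right h4 h2
    omega
  have hdeg : ∀ v ∈ X, s + 1 ≤ (X.filter (fun u => R.Adj v u)).card := by
    intro v hv
    have h1 := card_edgesIn_erase R X v
    have h2 : (X.erase v).card = X.card - 1 := Finset.card_erase_of_mem hv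
    have h3 := hmin (X.erase v) (by rw [← Finset.card_pos]; omega) (by omega)
    rw [h2] at h3
    obtain ⟨m, hm⟩ : ∃ m, X.card = m + 1 := ⟨X.card - 1, by omega⟩
    rw [hm] at hX h3
    simp only [Nat.add_sub_cancel] at h3
    have h4 : s * (m + 1) = s * m + s := by ring
    omega
  obtain ⟨r, hr⟩ := hXne
  have hconn : ∀ x ∈ X, R.Reachable r x := by
    by_contra hcon
    push Not at hcon
    obtain ⟨x0, hx0, hnr⟩ := hcon
    set Y : Finset ι := X.filter fun x => R.Reachable r x with hY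
    have hYX : Y ⊆ X := Finset.filter_subset _ _
    have hrY : r ∈ Y := Finset.mem_filter.mpr ⟨hr, SimpleGraph.Reachable.refl r⟩
    have hx0Y : x0 ∈ X \ Y := by
      rw [Finset.mem_sdiff, hY, Finset.mem_filter]
      exact ⟨hx0, fun h => hnr h.2⟩
    have hc : (X \ Y).card + Y.card = X.card := Finset.card_sdiff_add_card_eq_card hYX
    have c1 : 0 < Y.card := Finset.card_pos.mpr ⟨r, hrY⟩
    have c2 : 0 < (X \ Y).card := Finset.card_pos.mpr ⟨x0, hx0Y⟩
    have h1 := hmin Y ⟨r, hrY⟩ (by omega)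
    have h2 := hmin (X \ Y) ⟨x0, hx0Y⟩ (by omega)
    have h3 : edgesIn R X ⊆ edgesIn R Y ∪ edgesIn R (X \ Y) := by
      intro e he
      simp only [edgesIn, Finset.mem_filter, SimpleGraph.mem_edgeFinset] at he
      induction e with
      | h x y =>
      have hxy : R.Adj x y := he.1
      have hxX := he.2 x (by simp)
      have hyX := he.2 y (by simp)
      rw [Finset.mem_union]
      by_cases hx : R.Reachable r x
      · left
        simp only [edgesIn, Finset.mem_filter, SimpleGraph.mem_edgeFinset]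
        refine ⟨he.1, fun w hw => ?_⟩
        rw [Sym2.mem_iff] at hw
        rcases hw with rfl | rfl
        · exact Finset.mem_filter.mpr ⟨hxX, hx⟩
        · exact Finset.mem_filter.mpr ⟨hyX, hx.trans hxy.reachable⟩
      · right
        simp only [edgesIn, Finset.mem_filter, SimpleGraph.mem_edgeFinset]
        refine ⟨he.1, fun w hw => ?_⟩
        rw [Sym2.mem_iff] at hw
        rcases hw with rfl | rfl
        · rw [Finset.mem_sdiff, hY, Finset.mem_filter]
          exact ⟨hxX, fun h => hx h.2⟩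
        · rw [Finset.mem_sdiff, hY, Finset.mem_filter]
          exact ⟨hyX, fun h => hx (h.2.trans hxy.symm.reachable)⟩
    have h4 := (Finset.card_le_card h3).trans (Finset.card_union_le _ _)
    rw [← hc, mul_add] at hX
    omega
  obtain ⟨ps, hps, hlen⟩ := Mt.exists hXc hdeg s le_rfl
  exact ⟨r, ps, hlen, fun p hp => ⟨(hps.adj p hp).2.2, hconn _ (hps.adj p hp).1⟩, hps.dj⟩

end Pool.Agent.H954.AD
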