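import Pool.Agent.H954.AD.Match

/-!
The reduced graph.
-/

open Finset SzemerediRegularity

namespace Pool.Agent.H954.AD

universe u

open Classical in
/-- The facts about the reduced graph used later on. -/
structure Red {V : Type u} [Fintype V] (G : SimpleGraph V) {ι : Type u} [Fintype ι]
    (cl : ι → Finset V) (R : SimpleGraph ι) (L : ℕ) (η e κ : ℝ) : Prop where
  disj : ∀ i j, i ≠ j → Disjoint (cl i) (cl j)
  sz : ∀ i, L ≤ (cl i).card ∧ (cl i).card ≤ L + 1
  few : 2 * (G.edgeFinset.card : ℝ) ≤
    η * (Fintype.card V : ℝ) ^ 2 + 2 * R.edgeFinset.card * ((L : ℝ) + 1) ^ 2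
  dense : ∀ i j, R.Adj i j → ∀ X ⊆ cl i, ∀ Y ⊆ cl j, e * ((L : ℝ) + 1) ≤ X.card →
    e * ((L : ℝ) + 1) ≤ Y.card → κ * (Fintype.card V : ℝ) ^ 2 ≤ (G.interedges X Y).card

open Classical in
lemma card_adj_pairs {V : Type u} [Fintype V] (G : SimpleGraph V) :
    (univ.filter fun p : V × V => G.Adj p.1 p.2).card = 2 * G.edgeFinset.card := by
  rw [← G.sum_degrees_eq_twice_card_edges]
  have h : (univ.filter fun p : V × V => G.Adj p.1 p.2) =
      (univ : Finset V).biUnion fun v => (G.neighborFinset v).image fun u => (v, u) := by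
    ext p
    simp only [Finset.mem_filter, Finset.mem_univ, true_and, Finset.mem_biUnion, Finset.mem_image,
      SimpleGraph.mem_neighborFinset]
    constructor
    · intro h
      exact ⟨p.1, p.2, h, rfl⟩
    · rintro ⟨v, u, h, rfl⟩
      exact h
  rw [h, Finset.card_biUnion]
  · apply Finset.sum_congr rfl
    intro v _
    rw [Finset.card_image_of_injective _ (Prod.mk_right_injective v)]
    simp
  · intro x _ y _ hxy
    rw [Function.onFun, Finset.disjoint_left]
    intro p hp hp'
    rw [Finset.mem_image] at hp hp'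
    obtain ⟨_, _, rfl⟩ := hp
    obtain ⟨_, _, h'⟩ := hp'
    exact hxy (by simpa using (congrArg Prod.fst h').symm)

open Classical in
theorem reg (η : ℝ) (hη0 : 0 < η) (hη1 : η ≤ 1) (e : ℝ) (he0 : 0 < e) (he1 : e ≤ η / 1024)
    (l1 : ℕ) : ∃ (T : ℕ) (κ : ℝ), 0 < T ∧ 0 < κ ∧ ∀ (V : Type u) [Fintype V] (G : SimpleGraph V),
      T ≤ Fintype.card V →
      ∃ (ι : Type u) (_ : Fintype ι) (cl : ι → Finset V) (R : SimpleGraph ι) (L : ℕ),
        l1 ≤ Fintype.card ι ∧ Fintype.card ι ≤ T ∧ L = Fintype.card V / Fintype.card ι ∧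
        0 < Fintype.card ι ∧ Red G cl R L η e κ := by
  set d : ℝ := η / 32 with hd
  have hd0 : 0 < d := by positivity
  have hd1 : d ≤ 1 / 32 := by rw [hd]; linarith
  have he1' : e ≤ d / 32 := by rw [hd]; linarith
  set l0 : ℕ := max l1 ⌈4 / (η / 2)⌉₊ with hl0
  set T : ℕ := max (bound e l0) l0 with hT
  have hTpos : 0 < T := lt_of_lt_of_le (bound_pos _ _) (le_max_left _ _)
  have hTpos' : (0 : ℝ) < T := by exact_mod_cast hTpos
  refine ⟨T, d / 2 * (e / (2 * T)) ^ 2, hTpos, by positivity, ?_⟩
  intro V _ G hn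
  have hl0n : l0 ≤ Fintype.card V := (le_max_right _ _).trans hn
  obtain ⟨P, hP1, hP2, hP3, hP4⟩ := szemeredi_regularity G he0 hl0n
  have hcard : 0 < Fintype.card V := lt_of_lt_of_le hTpos hn
  have : Nonempty V := Fintype.card_pos_iff.mp hcard
  have hparts : 0 < P.parts.card := by
    rw [Finset.card_pos]
    exact P.parts_nonempty (univ_nonempty.ne_empty)
  let ι : Type u := {s // s ∈ P.parts}
  let R : SimpleGraph ι :=
    { Adj := fun i j => i ≠ j ∧ G.IsUniform e i.1 j.1 ∧ d ≤ (G.edgeDensity i.1 j.1 : ℝ)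
      symm := ⟨fun i j h => ⟨h.1.symm, h.2.1.symm, by rw [SimpleGraph.edgeDensity_comm]; exact h.2.2⟩⟩
      loopless := ⟨fun i h => h.1 rfl⟩ }
  have hιc : Fintype.card ι = P.parts.card := Fintype.card_coe _
  set L : ℕ := Fintype.card V / P.parts.card with hL
  have hLT : (Fintype.card V : ℝ) ≤ 2 * T * L := by
    have h1 : Fintype.card V < (L + 1) * P.parts.card := by
      rw [hL, mul_comm]
      exact Nat.lt_mul_div_succ _ hparts
    have h2 : P.parts.card ≤ T := hP3.trans (le_max_left _ _)
    have h3 : 1 ≤ L := by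
      rw [hL, Nat.le_div_iff_mul_le hparts, one_mul]
      exact h2.trans hn
    have h4 : Fintype.card V ≤ 2 * T * L := by
      calc Fintype.card V ≤ (L + 1) * P.parts.card := h1.le
        _ ≤ (L + 1) * T := Nat.mul_le_mul_left _ h2
        _ ≤ (2 * L) * T := Nat.mul_le_mul_right _ (by omega)
        _ = 2 * T * L := by ring
    exact_mod_cast h4
  have hsz : ∀ i : ι, L ≤ i.1.card ∧ i.1.card ≤ L + 1 := by
    intro i
    have h1 := hP1.average_le_card_part i.2
    have h2 := hP1.card_part_le_average_add_one i.2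
    rw [Finset.card_univ] at h1 h2
    exact ⟨h1, h2⟩
  refine ⟨ι, inferInstance, fun i => i.1, R, L, ?_, ?_, ?_, ?_, ?_, ?_, ?_, ?_⟩
  · rw [hιc]; exact (le_max_left _ _).trans hP2
  · rw [hιc]; exact hP3.trans (le_max_left _ _)
  · rw [hιc]
  · rw [hιc]; exact hparts
  · intro i j hij
    exact P.disjoint i.2 j.2 (fun h => hij (Subtype.ext h))
  · exact hsz
  · -- few
    have hsub : (univ.filter fun p : V × V => G.Adj p.1 p.2) ⊆
        ((P.nonUniforms G e).biUnion (fun (U, V) ↦ U ×ˢ V) ∪ P.parts.biUnion offDiag ∪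
        (P.sparsePairs G d).biUnion fun (U, V) ↦ G.interedges U V) ∪
        (univ.filter fun q : ι × ι => R.Adj q.1 q.2).biUnion fun q => q.1.1 ×ˢ q.2.1 := by
      rintro ⟨x, y⟩ h
      rw [Finset.mem_filter] at h
      obtain ⟨-, h1⟩ := h
      simp only at h1
      have hx := P.mem_part_self.2 (Finset.mem_univ x)
      have hy := P.mem_part_self.2 (Finset.mem_univ y)
      have hX := P.part_mem.2 (Finset.mem_univ x)
      have hY := P.part_mem.2 (Finset.mem_univ y)
      rw [Finset.mem_union]
      by_cases hxy : P.part x = P.part y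
      · left
        rw [Finset.mem_union, Finset.mem_union]
        left; right
        rw [Finset.mem_biUnion]
        refine ⟨P.part x, hX, ?_⟩
        rw [Finset.mem_offDiag]
        exact ⟨hx, hxy ▸ hy, h1.ne⟩
      · by_cases hu : G.IsUniform e (P.part x) (P.part y)
        · by_cases hdd : (G.edgeDensity (P.part x) (P.part y) : ℝ) < d
          · left
            rw [Finset.mem_union]
            right
            rw [Finset.mem_biUnion]
            refine ⟨(P.part x, P.part y), ?_, ?_⟩
            · rw [Finpartition.mk_mem_sparsePairs]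
              exact ⟨hX, hY, hxy, hdd⟩
            · rw [SimpleGraph.mem_interedges_iff]
              exact ⟨hx, hy, h1⟩
          · right
            push Not at hdd
            rw [Finset.mem_biUnion]
            refine ⟨(⟨P.part x, hX⟩, ⟨P.part y, hY⟩), ?_, ?_⟩
            · rw [Finset.mem_filter]
              exact ⟨Finset.mem_univ _, fun e' => hxy (congrArg Subtype.val e'), hu, hdd⟩
            · rw [Finset.mem_product]
              exact ⟨hx, hy⟩
        · left
          rw [Finset.mem_union, Finset.mem_union]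
          left; left
          rw [Finset.mem_biUnion]
          refine ⟨(P.part x, P.part y), ?_, ?_⟩
          · rw [Finpartition.mk_mem_nonUniforms]
            exact ⟨hX, hY, hxy, hu⟩
          · rw [Finset.mem_product]; exact ⟨hx, hy⟩
    have b1 := hP1.sum_nonUniforms_lt univ_nonempty he0 hP4
    have b2 := hP1.card_biUnion_offDiag_le (ε := η / 2) (by positivity) (by
      refine le_trans (Nat.le_ceil _) ?_
      exact_mod_cast (le_max_right _ _).trans hP2)
    have b3 := hP1.card_interedges_sparsePairs_le (G := G) (ε := d) hd0.le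
    rw [Finset.card_univ] at b1 b2 b3
    have b4 := Finset.card_le_card hsub
    have b5 := Finset.card_union_le ((P.nonUniforms G e).biUnion (fun (U, V) ↦ U ×ˢ V) ∪
        P.parts.biUnion offDiag) ((P.sparsePairs G d).biUnion fun (U, V) ↦ G.interedges U V)
    have b6 := Finset.card_union_le ((P.nonUniforms G e).biUnion (fun (U, V) ↦ U ×ˢ V))
      (P.parts.biUnion offDiag)
    have b7 := Finset.card_union_le ((P.nonUniforms G e).biUnion (fun (U, V) ↦ U ×ˢ V) ∪
        P.parts.biUnion offDiag ∪ (P.sparsePairs G d).biUnion fun (U, V) ↦ G.interedges U V)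
        ((univ.filter fun q : ι × ι => R.Adj q.1 q.2).biUnion fun q => q.1.1 ×ˢ q.2.1)
    have b8 : ((univ.filter fun q : ι × ι => R.Adj q.1 q.2).biUnion fun q => q.1.1 ×ˢ q.2.1).card ≤
        2 * R.edgeFinset.card * (L + 1) ^ 2 := by
      refine Finset.card_biUnion_le.trans ?_
      calc ∑ q ∈ univ.filter (fun q : ι × ι => R.Adj q.1 q.2), (q.1.1 ×ˢ q.2.1).card
          ≤ ∑ _q ∈ univ.filter (fun q : ι × ι => R.Adj q.1 q.2), (L + 1) ^ 2 := by
            apply Finset.sum_le_sum
            intro q _
            rw [Finset.card_product, sq]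
            exact Nat.mul_le_mul (hsz q.1).2 (hsz q.2).2
        _ = 2 * R.edgeFinset.card * (L + 1) ^ 2 := by
            rw [Finset.sum_const, smul_eq_mul]
            refine congrArg (fun z : ℕ => z * (L + 1) ^ 2) ?_
            have h1 := card_adj_pairs R
            refine Eq.trans ?_ (h1.trans ?_)
            · refine congrArg Finset.card ?_
              ext q
              simp only [Finset.mem_filter]
            · refine congrArg (fun z : Finset (Sym2 ι) => 2 * z.card) ?_
              ext q
              simp only [SimpleGraph.mem_edgeFinset]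
    rw [card_adj_pairs G] at b4
    have b9 : (2 * G.edgeFinset.card : ℝ) ≤
        (((P.nonUniforms G e).biUnion (fun (U, V) ↦ U ×ˢ V)).card : ℝ) +
        (P.parts.biUnion offDiag).card +
        ((P.sparsePairs G d).biUnion fun (U, V) ↦ G.interedges U V).card +
        2 * R.edgeFinset.card * ((L : ℝ) + 1) ^ 2 := by
      exact_mod_cast (by omega)
    have hn0 : (0 : ℝ) ≤ (Fintype.card V : ℝ) ^ 2 := by positivity
    have b10 : (4 * e + η / 2 / 2 + 4 * d) * (Fintype.card V : ℝ) ^ 2 ≤
        η * (Fintype.card V : ℝ) ^ 2 := by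
      apply mul_le_mul_of_nonneg_right _ hn0
      rw [hd] at he1' ⊢
      linarith
    have b11 : (((P.nonUniforms G e).biUnion (fun (U, V) ↦ U ×ˢ V)).card : ℝ) +
        (P.parts.biUnion offDiag).card +
        ((P.sparsePairs G d).biUnion fun (U, V) ↦ G.interedges U V).card ≤
        η * (Fintype.card V : ℝ) ^ 2 := by
      linarith
    have b12 : 2 * (G.edgeFinset.card : ℝ) ≤
        η * (Fintype.card V : ℝ) ^ 2 + 2 * R.edgeFinset.card * ((L : ℝ) + 1) ^ 2 := by
      linarith
    refine b12.trans (le_of_eq ?_)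
    refine congrArg (fun z : Finset (Sym2 ι) =>
      η * (Fintype.card V : ℝ) ^ 2 + 2 * (z.card : ℝ) * ((L : ℝ) + 1) ^ 2) ?_
    ext q
    simp only [SimpleGraph.mem_edgeFinset]
  · -- dense
    rintro i j ⟨_, hu, hdd⟩ X hX Y hY hXc hYc
    have hL0 : (0 : ℝ) ≤ L := Nat.cast_nonneg L
    have si : (i.1.card : ℝ) ≤ L + 1 := by exact_mod_cast (hsz i).2
    have sj : (j.1.card : ℝ) ≤ L + 1 := by exact_mod_cast (hsz j).2
    have h1 := hu hX hY (by nlinarith) (by nlinarith)
    rw [abs_lt] at h1
    have h2 : d / 2 ≤ (G.edgeDensity X Y : ℝ) := by linarith [h1.1]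
    have hXp : (0 : ℝ) < X.card := lt_of_lt_of_le (by positivity) hXc
    have hYp : (0 : ℝ) < Y.card := lt_of_lt_of_le (by positivity) hYc
    have h3 : ((G.interedges X Y).card : ℝ) = (G.edgeDensity X Y : ℝ) * (X.card * Y.card) := by
      rw [SimpleGraph.edgeDensity_def]
      push_cast
      field_simp
    rw [h3]
    have h4 : e / (2 * T) * Fintype.card V ≤ X.card := by
      refine le_trans ?_ hXc
      rw [div_mul_eq_mul_div, div_le_iff₀ (by positivity)]
      nlinarith
    have h5 : e / (2 * T) * Fintype.card V ≤ Y.card := by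
      refine le_trans ?_ hYc
      rw [div_mul_eq_mul_div, div_le_iff₀ (by positivity)]
      nlinarith
    have h6 : (e / (2 * T) * Fintype.card V) ^ 2 ≤ X.card * Y.card := by
      rw [sq]
      exact mul_le_mul h4 h5 (by positivity) (by positivity)
    calc d / 2 * (e / (2 * T)) ^ 2 * (Fintype.card V : ℝ) ^ 2 =
        d / 2 * (e / (2 * T) * Fintype.card V) ^ 2 := by ring
      _ ≤ (G.edgeDensity X Y : ℝ) * (X.card * Y.card) :=
        mul_le_mul h2 h6 (by positivity) (by linarith)

end Pool.Agent.H954.AD
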